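import Pool.Agent.ECM.St

/-!
# ECM, module Au (helper89): the conditions at the three vertices are automatic

MP_854819_co.
-/

set_option autoImplicit false

namespace Pool.Agent.ECM

open Finset Pool.Agent.ECH

private theorem Au_add_self (a : ZMod 2) : a + a = 0 := by
  revert a
  decide

/-- the sum of a symmetric function with zero diagonal -/
private theorem Au_sym {V : Type} [Fintype V] (f : V → V → ZMod 2) (h1 : ∀ x y, f x y = f y x)
    (h2 : ∀ x, f x x = 0) : ∑ x, ∑ y, f x y = 0 := by
  rw [← Finset.sum_product']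
  refine Finset.sum_involution (fun p _ => (p.2, p.1)) ?_ ?_ ?_ ?_
  · rintro ⟨x, y⟩ -
    show f x y + f y x = 0
    rw [h1 y x]
    exact Au_add_self _
  · rintro ⟨x, y⟩ - hne heq
    apply hne
    have h3 : y = x := congrArg Prod.fst heq
    subst h3
    exact h2 _
  · intro p _
    exact Finset.mem_product.2 ⟨Finset.mem_univ _, Finset.mem_univ _⟩
  · intro p _
    rfl

private theorem Au_om : ∀ k p : K, k ≠ 0 →
    om k p = 1 + (if p = k then 1 else 0) + (if p = 0 then 1 else 0) := by
  decide

private theorem Au_om2 : ∀ k p : K, k ≠ 0 → p ≠ 0 →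
    (if p = k then (1 : ZMod 2) else 0) = 1 + om k p := by
  decide

private theorem Au_omL {V : Type} [Fintype V] (Q : V → V → ZMod 2) (v : V → K) (k : K) (x : V) :
    om k (L Q v x) = ∑ y, Q x y * om k (v y) := by
  show k.1 * (∑ y, Q x y * (v y).2) + k.2 * (∑ y, Q x y * (v y).1) = _
  rw [Finset.mul_sum, Finset.mul_sum, ← Finset.sum_add_distrib]
  refine Finset.sum_congr rfl fun y _ => ?_
  show k.1 * (Q x y * (v y).2) + k.2 * (Q x y * (v y).1) = Q x y * (k.1 * (v y).2 + k.2 * (v y).1)
  ring

private theorem Au_star {V : Type} [Fintype V] [DecidableEq V] (Q : V → V → ZMod 2) (hQ : EvG Q)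
    (v : V → K) (k : K) (hk : k ≠ 0) :
    ∑ x, (if v x = k then om (v x) (L Q v x) else 0) =
      ∑ x, ∑ y, (if v x = k ∧ v y = 0 then Q x y else 0) := by
  have h1 : ∀ x, (if v x = k then om (v x) (L Q v x) else 0) =
      (if v x = k then ∑ y, Q x y else 0) + (∑ y, if v x = k ∧ v y = k then Q x y else 0) +
        ∑ y, (if v x = k ∧ v y = 0 then Q x y else 0) := by
    intro x
    by_cases h : v x = k
    · rw [if_pos h, if_pos h, h, Au_omL, ← Finset.sum_add_distrib, ← Finset.sum_add_distrib]
      refine Finset.sum_congr rfl fun y _ => ?_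
      rw [Au_om k (v y) hk]
      by_cases h2 : v y = k
      · have h3 : v y ≠ 0 := by rw [h2]; exact hk
        simp [h2, hk, mul_add]
      · by_cases h3 : v y = 0
        · have h4 : (0 : K) ≠ k := fun h => hk h.symm
          simp [h3, h4, mul_add]
        · simp [h2, h3]
    · simp [h]
  rw [Finset.sum_congr rfl fun x _ => h1 x, Finset.sum_add_distrib, Finset.sum_add_distrib]
  have h2 : ∑ x, (if v x = k then ∑ y, Q x y else 0) = 0 := by
    refine Finset.sum_eq_zero fun x _ => ?_
    rw [hQ.deg x, ite_self]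
  have h3 : ∑ x, ∑ y, (if v x = k ∧ v y = k then Q x y else 0) = 0 := by
    refine Au_sym _ (fun x y => ?_) fun x => ?_
    · rw [hQ.symm x y]
      by_cases ha : v x = k <;> by_cases hb : v y = k <;> simp [ha, hb]
    · rw [hQ.diag x, ite_self]
  rw [h2, h3, zero_add, zero_add]

private theorem Au_one {V : Type} [Fintype V] [DecidableEq V] (Q : V → V → ZMod 2) (hQ : EvG Q)
    (v : V → K) (p : V) (hk : v p ≠ 0) (h : ∀ z, z ≠ p → v z = v p → om (v z) (L Q v z) = 0)
    (h0 : ∑ x, ∑ y, (if v x = v p ∧ v y = 0 then Q x y else 0) = 0) :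
    om (v p) (L Q v p) = 0 := by
  have h1 := Au_star Q hQ v (v p) hk
  rw [h0, Finset.sum_eq_single p] at h1
  · rw [if_pos rfl] at h1
    exact h1
  · intro z _ hz
    by_cases hc : v z = v p
    · rw [if_pos hc]
      exact h z hz hc
    · rw [if_neg hc]
  · intro hp
    exact absurd (Finset.mem_univ p) hp

private theorem Au_col {V : Type} [DecidableEq V] (v : V → K) (t : V × V × V) (h1 : v t.1 = k0)
    (h2 : v t.2.1 = k1) (h3 : v t.2.2 = k2) (p : V) (hp : p ∈ Ts t) (z : V) (hz : z ≠ p)
    (hc : v z = v p) : z ∉ Ts t := by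
  intro hz2
  have e01 : k0 ≠ k1 := by decide
  have e02 : k0 ≠ k2 := by decide
  have e12 : k1 ≠ k2 := by decide
  have hp' : p = t.1 ∨ p = t.2.1 ∨ p = t.2.2 := by
    simpa [Ts] using hp
  have hz' : z = t.1 ∨ z = t.2.1 ∨ z = t.2.2 := by
    simpa [Ts] using hz2
  rcases hp' with hp' | hp' | hp' <;> rcases hz' with hz' | hz' | hz' <;> rw [hp', hz'] at hc
  · exact hz (hz'.trans hp'.symm)
  · rw [h1, h2] at hc
    exact e01 hc.symm
  · rw [h1, h3] at hc
    exact e02 hc.symm
  · rw [h1, h2] at hc
    exact e01 hc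
  · exact hz (hz'.trans hp'.symm)
  · rw [h2, h3] at hc
    exact e12 hc.symm
  · rw [h1, h3] at hc
    exact e02 hc
  · rw [h2, h3] at hc
    exact e12 hc
  · exact hz (hz'.trans hp'.symm)

theorem thm_Au : St_Au := by
  intro V _ _ Q hQ v t h1 h2 h3
  refine ⟨?_, ?_⟩
  · intro hv hE z
    refine ⟨hv z, ?_⟩
    by_cases hz : z ∈ Ts t
    · refine Au_one Q hQ v z (hv z) (fun y hy hc => hE y (Au_col v t h1 h2 h3 z hz y hy hc)) ?_
      refine Finset.sum_eq_zero fun x _ => Finset.sum_eq_zero fun y _ => ?_
      rw [if_neg fun h => hv y h.2]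
    · exact hE z hz
  · intro x hx hL hv hE z hzx
    refine ⟨hv z hzx, ?_⟩
    by_cases hz : z ∈ Ts t
    · have hk : v z ≠ 0 := hv z hzx
      refine Au_one Q hQ v z hk (fun y hy hc => hE y (Au_col v t h1 h2 h3 z hz y hy hc) ?_) ?_
      · intro hyx
        rw [hyx, hx] at hc
        exact hk hc.symm
      · have e1 : ∀ w, (∑ y, if v w = v z ∧ v y = 0 then Q w y else 0) =
            Q x w * (1 + om (v z) (v w)) := by
          intro w
          rw [Finset.sum_eq_single x]
          · by_cases hw : w = x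
            · subst hw
              rw [hQ.diag, zero_mul, ite_self]
            · rw [← Au_om2 (v z) (v w) hk (hv w hw), hQ.symm w x]
              by_cases hc : v w = v z
              · rw [if_pos ⟨hc, hx⟩, if_pos hc, mul_one]
              · rw [if_neg fun h => hc h.1, if_neg hc, mul_zero]
          · intro y _ hy
            rw [if_neg fun h => hv y hy h.2]
          · intro h
            exact absurd (Finset.mem_univ x) h
        rw [Finset.sum_congr rfl fun w _ => e1 w]
        have e2 : ∑ w, Q x w * (1 + om (v z) (v w)) = ∑ w, Q x w + om (v z) (L Q v x) := by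
          rw [Au_omL, ← Finset.sum_add_distrib]
          refine Finset.sum_congr rfl fun w _ => ?_
          ring
        rw [e2, hQ.deg x, hL]
        show (0 : ZMod 2) + ((v z).1 * 0 + (v z).2 * 0) = 0
        ring
    · exact hE z hz hzx

end Pool.Agent.ECM
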