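import Pool.Agent.ECH.Defs

/-!
# ECM: even circuit decompositions of 4-regular graphs with a Hamilton decomposition, `n = 1` modulo
four (MP_854819)

Colours are the nonzero elements of `K = F_2 x F_2`; the colouring `v` is good at `x` iff
`(Q v) x` is `0` or `v x`. The number of the good colourings is counted modulo four.
-/

set_option autoImplicit false

namespace Pool.Agent.ECM

open Pool.Agent.ECH

/-- the labels -/
abbrev K : Type := ZMod 2 × ZMod 2

/-- the three colours -/
def k0 : K := (0, 1)
/-- the three colours -/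
def k1 : K := (1, 0)
/-- the three colours -/
def k2 : K := (1, 1)

/-- the symplectic form: for nonzero `p`, `q` it is `1` iff `p ≠ q` -/
def om (p q : K) : ZMod 2 := p.1 * q.2 + p.2 * q.1

/-- the product of the matrix `Q` and the vector `v` -/
def L {V : Type} [Fintype V] (Q : V → V → ZMod 2) (v : V → K) (x : V) : K :=
  (∑ y, Q x y * (v y).1, ∑ y, Q x y * (v y).2)

/-- `v` is good at `x` -/
def Gd {V : Type} [Fintype V] (Q : V → V → ZMod 2) (v : V → K) (x : V) : Prop :=
  v x ≠ 0 ∧ om (v x) (L Q v x) = 0

instance {V : Type} [Fintype V] (Q : V → V → ZMod 2) (v : V → K) (x : V) : Decidable (Gd Q v x) :=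
  inferInstanceAs (Decidable (v x ≠ 0 ∧ om (v x) (L Q v x) = 0))

/-- the number of the `v` with `v = d` on `D` which are good outside of `D` -/
def NN {V : Type} [Fintype V] [DecidableEq V] (Q : V → V → ZMod 2) (D : Finset V) (d : V → K) : ℕ :=
  (Finset.univ.filter fun v : V → K => (∀ z ∈ D, v z = d z) ∧ ∀ z, z ∉ D → Gd Q v z).card

/-- the number of the `v` with `v = d` on `D`, `v x = 0`, `(Q v) x = 0` which are good outside of
`D` and `x` -/
def NX {V : Type} [Fintype V] [DecidableEq V] (Q : V → V → ZMod 2) (D : Finset V) (d : V → K)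
    (x : V) : ℕ :=
  (Finset.univ.filter fun v : V → K => (∀ z ∈ D, v z = d z) ∧ v x = 0 ∧ L Q v x = 0 ∧
    ∀ z, z ∉ D → z ≠ x → Gd Q v z).card

/-- `Q` is the adjacency matrix modulo two of a graph -/
structure SyG {V : Type} (Q : V → V → ZMod 2) : Prop where
  diag : ∀ x, Q x x = 0
  symm : ∀ x y, Q x y = Q y x

/-- the number of the edges of `Q` outside of `D`; `r` is an order of the vertices -/
def ed {V : Type} [Fintype V] [DecidableEq V] (Q : V → V → ZMod 2) (r : V → ℕ) (D : Finset V) : ℕ :=
  (Finset.univ.filter fun p : V × V => r p.1 < r p.2 ∧ p.1 ∉ D ∧ p.2 ∉ D ∧ Q p.1 p.2 = 1).card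

/-- the triples `(p, q, s)` of different vertices with `r p < r q` -/
def TT {V : Type} [Fintype V] [DecidableEq V] (r : V → ℕ) : Finset (V × V × V) :=
  Finset.univ.filter fun t => r t.1 < r t.2.1 ∧ t.2.2 ≠ t.1 ∧ t.2.2 ≠ t.2.1

/-- the set of the three vertices -/
def Ts {V : Type} [DecidableEq V] (t : V × V × V) : Finset V := {t.1, t.2.1, t.2.2}

/-- the colours `k0`, `k1`, `k2` on `t` (`0` outside of `t`) -/
def Td {V : Type} [DecidableEq V] (t : V × V × V) (x : V) : K :=
  if x = t.1 then k0 else if x = t.2.1 then k1 else if x = t.2.2 then k2 else 0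

/-- the number of the triples with the colours `k0`, `k1`, `k2` -/
def gg {V : Type} [Fintype V] [DecidableEq V] (r : V → ℕ) (v : V → K) : ℕ :=
  ((TT r).filter fun t => v t.1 = k0 ∧ v t.2.1 = k1 ∧ v t.2.2 = k2).card

/-- the number of the vertices with the colour `k` -/
def Nc {V : Type} [Fintype V] (v : V → K) (k : K) : ℕ := (Finset.univ.filter fun x => v x = k).card

/-- the matrix of the linear system: the identity on `D`, and `Q + diag f` outside of `D` -/
def Mf {V : Type} [DecidableEq V] (Q : V → V → ZMod 2) (D : Finset V) (f : V → ZMod 2)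
    (x y : V) : ZMod 2 :=
  if x ∈ D then (if y = x then 1 else 0) else Q x y + (if y = x then f x else 0)

/-- the graph `Q` with the edge `a b` added or removed -/
def tog {V : Type} [DecidableEq V] (Q : V → V → ZMod 2) (a b : V) (x y : V) : ZMod 2 :=
  Q x y + if (x = a ∧ y = b) ∨ (x = b ∧ y = a) then 1 else 0

/-- exchange of the two coordinates -/
def swp {V : Type} (v : V → K) (x : V) : K := ((v x).2, (v x).1)

/-- the number of the pairs of vertices which are in different order for `a` and for `b` -/
def iv {V : Type} [Fintype V] (a b : V → ℕ) : ℕ :=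
  (Finset.univ.filter fun p : V × V => a p.1 < a p.2 ∧ b p.2 < b p.1).card

end Pool.Agent.ECM
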