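import Pool.Agent.ECM.St

/-!
# ECM, module Eq: the number of the edges of `Qf a b` modulo two (MP_854819_co)
-/

set_option autoImplicit false

namespace Pool.Agent.ECM

open SimpleGraph Pool.Agent.ECH Pool.Agent.CEC

private theorem Eq_off {V : Type} [Fintype V] [DecidableEq V] {M : Type} [AddCommMonoid M]
    (g : V → M) : ∑ p : V × V, (if p.1 ≠ p.2 then g p.1 else 0) =
      ∑ x, (Fintype.card V - 1) • g x := by
  rw [Fintype.sum_prod_type]
  refine Finset.sum_congr rfl fun x _ => ?_
  show ∑ y, (if x ≠ y then g x else 0) = _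
  rw [← Finset.sum_filter, Finset.sum_const, Finset.filter_ne,
    Finset.card_erase_of_mem (Finset.mem_univ _), Finset.card_univ]

private theorem Eq_split {V : Type} [Fintype V] [DecidableEq V] {M : Type} [AddCommMonoid M]
    (a : V → ℕ) (ha : Function.Injective a) (f : V × V → M) :
    ∑ p : V × V, (if p.1 ≠ p.2 then f p else 0) =
      ∑ p : V × V, (if a p.1 < a p.2 then f p else 0) +
      ∑ p : V × V, (if a p.1 < a p.2 then f p.swap else 0) := by
  have h1 : ∑ p : V × V, (if a p.1 < a p.2 then f p.swap else 0) =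
      ∑ p : V × V, (if a p.2 < a p.1 then f p else 0) := by
    rw [← Equiv.sum_comp (Equiv.prodComm V V)]
    refine Finset.sum_congr rfl fun p _ => ?_
    simp
  rw [h1, ← Finset.sum_add_distrib]
  refine Finset.sum_congr rfl fun p _ => ?_
  by_cases h : p.1 = p.2
  · rw [h]
    simp
  · rw [if_pos h]
    have h2 : a p.1 ≠ a p.2 := fun h3 => h (ha h3)
    rcases Nat.lt_or_ge (a p.1) (a p.2) with h3 | h3
    · rw [if_pos h3, if_neg (by omega), add_zero]
    · rw [if_neg (by omega), if_pos (by omega), zero_add]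

private theorem Eq_dec : ∀ q : ZMod 2, (if q = 1 then (1 : ZMod 2) else 0) = q := by decide

private theorem Eq_cast {V : Type} [Fintype V] [DecidableEq V] (P : V × V → Prop)
    [DecidablePred P] : (((Finset.univ.filter P).card : ℕ) : ZMod 2) =
      ∑ p : V × V, (if P p then (1 : ZMod 2) else 0) := by
  rw [Finset.card_filter]
  push_cast
  rfl

theorem thm_Eq : St_Eq := by
  intro V _ _ α β a b hα hβ hn
  obtain ⟨s, hs⟩ : ∃ s : V → ZMod 2, s = fun x => (a x : ZMod 2) + (b x : ZMod 2) := ⟨_, rfl⟩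
  -- the sum of `s`
  have h1 : ∑ p : V × V, (if a p.1 < a p.2 then s p.1 else 0) +
      ∑ p : V × V, (if a p.1 < a p.2 then s p.2 else 0) = 0 := by
    have h := Eq_split a hα.inj (fun p => s p.1)
    rw [Eq_off s] at h
    have h2 : ∑ x, (Fintype.card V - 1) • s x = 0 := by
      refine Finset.sum_eq_zero fun x _ => ?_
      rw [nsmul_eq_mul]
      have h3 : ((Fintype.card V - 1 : ℕ) : ZMod 2) = 0 := by
        rw [ZMod.natCast_eq_zero_iff]
        omega
      rw [h3, zero_mul]
    rw [h2] at h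
    exact h.symm
  -- the number of the pairs
  have h2 : ∑ p : V × V, (if a p.1 < a p.2 then (1 : ZMod 2) else 0) = 0 := by
    have h := Eq_split a hα.inj (fun _ => (1 : ℕ))
    rw [Eq_off (fun _ => (1 : ℕ))] at h
    simp only [smul_eq_mul, mul_one, Finset.sum_const, Finset.card_univ] at h
    obtain ⟨c, hc⟩ : ∃ c : ℕ, c = ∑ p : V × V, (if a p.1 < a p.2 then 1 else 0) := ⟨_, rfl⟩
    rw [← hc] at h
    obtain ⟨k, hk⟩ : ∃ k, Fintype.card V = 4 * k + 1 := ⟨Fintype.card V / 4, by omega⟩
    rw [hk] at h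
    have h4 : c = 2 * (k * (4 * k + 1)) := by
      have h5 : (4 * k + 1) * (4 * k + 1 - 1) = c + c := h
      have h6 : 4 * k + 1 - 1 = 4 * k := by omega
      rw [h6] at h5
      nlinarith
    have h5 : ((c : ℕ) : ZMod 2) = 0 := by
      rw [ZMod.natCast_eq_zero_iff]
      exact ⟨_, h4⟩
    rw [hc] at h5
    push_cast at h5
    exact h5
  unfold ed iv
  rw [Eq_cast, Eq_cast]
  have h3 : ∀ p : V × V, (if a p.1 < a p.2 ∧ p.1 ∉ (∅ : Finset V) ∧ p.2 ∉ (∅ : Finset V) ∧
      Qf a b p.1 p.2 = 1 then (1 : ZMod 2) else 0) =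
      (if a p.1 < a p.2 then (1 : ZMod 2) else 0) +
      (if a p.1 < a p.2 ∧ b p.2 < b p.1 then (1 : ZMod 2) else 0) +
      ((if a p.1 < a p.2 then s p.1 else 0) + (if a p.1 < a p.2 then s p.2 else 0)) := by
    intro p
    by_cases h : a p.1 < a p.2
    · have h4 : p.1 ≠ p.2 := by
        intro h5
        rw [h5] at h
        omega
      have h5 : Qf a b p.1 p.2 = 1 + (if b p.2 < b p.1 then (1 : ZMod 2) else 0) +
          (s p.1 + s p.2) := by
        unfold Qf
        rw [if_neg h4, if_neg (show ¬ a p.2 < a p.1 by omega), hs]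
        ring
      have h6 : (if a p.1 < a p.2 ∧ p.1 ∉ (∅ : Finset V) ∧ p.2 ∉ (∅ : Finset V) ∧
          Qf a b p.1 p.2 = 1 then (1 : ZMod 2) else 0) =
          (if Qf a b p.1 p.2 = 1 then (1 : ZMod 2) else 0) := by
        simp [h]
      rw [h6, Eq_dec, h5]
      simp [h]
    · simp [h]
  rw [Finset.sum_congr rfl fun p _ => h3 p, Finset.sum_add_distrib, Finset.sum_add_distrib,
    Finset.sum_add_distrib, h1, h2, zero_add, add_zero]

end Pool.Agent.ECM
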