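import Pool.Agent.ECM.St

/-!
# ECM: module Ex, the number of the good colourings and the linear systems
-/

set_option autoImplicit false

namespace Pool.Agent.ECM

open Pool.Agent.ECH

private lemma Ex_L {V : Type} [Fintype V] [DecidableEq V] (Q : V → V → ZMod 2) (D : Finset V)
    (f : V → ZMod 2) (v : V → K) (x : V) :
    L (Mf Q D f) v x =
      if x ∈ D then v x else L Q v x + (f x * (v x).1, f x * (v x).2) := by
  by_cases hx : x ∈ D
  · rw [if_pos hx]
    ext <;> simp [L, Mf, hx]
  · rw [if_neg hx]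
    ext <;> simp [L, Mf, hx, add_mul, Finset.sum_add_distrib]

private lemma Ex_zeta (p w : K) :
    ((Finset.univ.filter fun t : ZMod 2 => w + (t * p.1, t * p.2) = 0).card : ZMod 4) =
      (if p ≠ 0 ∧ om p w = 0 then 1 else 0) + 2 * (if p = 0 ∧ w = 0 then 1 else 0) := by
  revert p w
  decide

private lemma Ex_prod {V : Type} [DecidableEq V] (g h : V → ZMod 4) (s : Finset V) :
    ∏ x ∈ s, (g x + 2 * h x) =
      ∏ x ∈ s, g x + 2 * ∑ x ∈ s, h x * ∏ y ∈ s.erase x, g y := by
  induction s using Finset.induction_on with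
  | empty => simp
  | insert a s ha ih =>
    have h1 : ∑ x ∈ insert a s, h x * ∏ y ∈ (insert a s).erase x, g y =
        h a * ∏ y ∈ s, g y + g a * ∑ x ∈ s, h x * ∏ y ∈ s.erase x, g y := by
      rw [Finset.sum_insert ha, Finset.erase_insert ha, Finset.mul_sum]
      congr 1
      refine Finset.sum_congr rfl fun x hx => ?_
      have hxa : a ≠ x := fun e => ha (e ▸ hx)
      have he : (insert a s).erase x = insert a (s.erase x) := Finset.erase_insert_of_ne hxa
      rw [he, Finset.prod_insert (fun hm => ha (Finset.mem_of_mem_erase hm))]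
      ring
    rw [Finset.prod_insert ha, Finset.prod_insert ha, ih, h1]
    have h4 : (4 : ZMod 4) = 0 := by decide
    generalize ∏ x ∈ s, g x = P
    generalize ∑ x ∈ s, h x * ∏ y ∈ s.erase x, g y = S
    have : (g a + 2 * h a) * (P + 2 * S) =
        g a * P + 2 * (h a * P + g a * S) + 4 * (h a * S) := by ring
    rw [this, h4]
    ring

private lemma Ex_count {V : Type} [Fintype V] [DecidableEq V] (Q : V → V → ZMod 2) (D : Finset V)
    (d : V → K) (v : V → K) :
    (∑ f ∈ Finset.univ.filter (fun f : V → ZMod 2 => ∀ x ∈ D, f x = 0),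
      if ∀ x, L (Mf Q D f) v x = (if x ∈ D then d x else 0) then (1 : ZMod 4) else 0) =
    if ∀ z ∈ D, v z = d z then ∏ x ∈ Dᶜ,
      ((Finset.univ.filter fun t : ZMod 2 =>
        L Q v x + (t * (v x).1, t * (v x).2) = 0).card : ZMod 4) else 0 := by
  by_cases hv : ∀ z ∈ D, v z = d z
  · rw [if_pos hv, ← Finset.natCast_card_filter, Finset.filter_filter]
    have hset : (Finset.univ.filter fun f : V → ZMod 2 =>
        (∀ x ∈ D, f x = 0) ∧ ∀ x, L (Mf Q D f) v x = (if x ∈ D then d x else 0)) =
        Fintype.piFinset (fun x => if x ∈ D then ({0} : Finset (ZMod 2)) else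
          Finset.univ.filter fun t : ZMod 2 => L Q v x + (t * (v x).1, t * (v x).2) = 0) := by
      ext f
      simp only [Finset.mem_filter, Finset.mem_univ, true_and, Fintype.mem_piFinset]
      constructor
      · rintro ⟨h1, h2⟩ x
        by_cases hx : x ∈ D
        · simp [hx, h1 x hx]
        · have := h2 x
          rw [Ex_L, if_neg hx, if_neg hx] at this
          simp [hx, this]
      · intro h
        refine ⟨fun x hx => ?_, fun x => ?_⟩
        · have := h x
          simpa [hx] using this
        · rw [Ex_L]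
          by_cases hx : x ∈ D
          · rw [if_pos hx, if_pos hx]
            exact hv x hx
          · rw [if_neg hx, if_neg hx]
            have := h x
            rw [if_neg hx] at this
            exact (Finset.mem_filter.1 this).2
    rw [hset, Fintype.card_piFinset, Nat.cast_prod,
      ← Finset.prod_mul_prod_compl D]
    have hD : ∏ i ∈ D, (((if i ∈ D then ({0} : Finset (ZMod 2)) else
          Finset.univ.filter fun t : ZMod 2 =>
            L Q v i + (t * (v i).1, t * (v i).2) = 0).card : ℕ) : ZMod 4) = 1 := by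
      refine Finset.prod_eq_one fun i hi => ?_
      rw [if_pos hi]
      simp
    rw [hD, one_mul]
    refine Finset.prod_congr rfl fun i hi => ?_
    rw [if_neg (Finset.mem_compl.1 hi)]
  · rw [if_neg hv]
    refine Finset.sum_eq_zero fun f _ => ?_
    rw [if_neg]
    intro h
    apply hv
    intro z hz
    have := h z
    rw [Ex_L, if_pos hz, if_pos hz] at this
    exact this

theorem thm_Ex : St_Ex := by
  intro V _ _ Q D d
  have hNN : (NN Q D d : ZMod 4) = ∑ v : V → K, if ∀ z ∈ D, v z = d z then
      ∏ x ∈ Dᶜ, (if v x ≠ 0 ∧ om (v x) (L Q v x) = 0 then (1 : ZMod 4) else 0) else 0 := by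
    unfold NN
    rw [Finset.natCast_card_filter]
    refine Finset.sum_congr rfl fun v _ => ?_
    by_cases hv : ∀ z ∈ D, v z = d z
    · rw [if_pos hv, Finset.prod_ite_zero]
      have : ((∀ z ∈ D, v z = d z) ∧ ∀ z, z ∉ D → Gd Q v z) ↔
          ∀ i ∈ Dᶜ, v i ≠ 0 ∧ om (v i) (L Q v i) = 0 := by
        constructor
        · rintro ⟨_, h⟩ i hi
          exact h i (Finset.mem_compl.1 hi)
        · intro h
          exact ⟨hv, fun z hz => h z (Finset.mem_compl.2 hz)⟩
      rw [if_congr this rfl rfl]
      simp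
    · rw [if_neg hv, if_neg (fun h => hv h.1)]
  have hNX : ∀ x ∈ Dᶜ, (NX Q D d x : ZMod 4) = ∑ v : V → K, if ∀ z ∈ D, v z = d z then
      (if v x = 0 ∧ L Q v x = 0 then (1 : ZMod 4) else 0) * ∏ y ∈ Dᶜ.erase x,
        (if v y ≠ 0 ∧ om (v y) (L Q v y) = 0 then (1 : ZMod 4) else 0) else 0 := by
    intro x hx
    unfold NX
    rw [Finset.natCast_card_filter]
    refine Finset.sum_congr rfl fun v _ => ?_
    by_cases hv : ∀ z ∈ D, v z = d z
    · rw [if_pos hv, Finset.prod_ite_zero]
      by_cases h0 : v x = 0 ∧ L Q v x = 0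
      · rw [if_pos h0, one_mul]
        have : ((∀ z ∈ D, v z = d z) ∧ v x = 0 ∧ L Q v x = 0 ∧
            ∀ z, z ∉ D → z ≠ x → Gd Q v z) ↔
            ∀ i ∈ Dᶜ.erase x, v i ≠ 0 ∧ om (v i) (L Q v i) = 0 := by
          constructor
          · rintro ⟨_, _, _, h⟩ i hi
            rw [Finset.mem_erase, Finset.mem_compl] at hi
            exact h i hi.2 hi.1
          · intro h
            exact ⟨hv, h0.1, h0.2, fun z hz hzx =>
              h z (Finset.mem_erase.2 ⟨hzx, Finset.mem_compl.2 hz⟩)⟩
        rw [if_congr this rfl rfl]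
        simp
      · rw [if_neg h0, zero_mul, if_neg (fun h => h0 ⟨h.2.1, h.2.2.1⟩)]
    · rw [if_neg hv, if_neg (fun h => hv h.1)]
  rw [hNN, Finset.sum_congr rfl hNX, Finset.sum_comm]
  have hR : ∑ f ∈ Finset.univ.filter (fun f : V → ZMod 2 => ∀ x ∈ D, f x = 0),
      ((Finset.univ.filter fun v : V → K =>
        ∀ x, L (Mf Q D f) v x = if x ∈ D then d x else 0).card : ZMod 4) =
      ∑ v : V → K, if ∀ z ∈ D, v z = d z then ∏ x ∈ Dᶜ,
        ((Finset.univ.filter fun t : ZMod 2 =>
          L Q v x + (t * (v x).1, t * (v x).2) = 0).card : ZMod 4) else 0 := by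
    simp only [Finset.natCast_card_filter]
    rw [Finset.sum_comm]
    refine Finset.sum_congr rfl fun v _ => ?_
    have := Ex_count Q D d v
    simp only [Finset.natCast_card_filter] at this
    exact this
  rw [hR, Finset.mul_sum, ← Finset.sum_add_distrib]
  refine Finset.sum_congr rfl fun v _ => ?_
  by_cases hv : ∀ z ∈ D, v z = d z
  · simp only [if_pos hv]
    rw [Finset.prod_congr rfl (fun x _ => Ex_zeta (v x) (L Q v x)), Ex_prod]
  · simp only [if_neg hv]
    simp

end Pool.Agent.ECM
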