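import Pool.Agent.ECM.St
import Pool.Agent.ECH.St

/-! # ECM: [Fn] the theorem (MP_854819_co) -/

set_option autoImplicit false

namespace Pool.Agent.ECM

open Finset SimpleGraph Pool.Agent.ECH Pool.Agent.CEC

private lemma Fn_cyc {V : Type} [Fintype V] {α : Equiv.Perm V} {a : V → ℕ} (h : Cyc α a)
    (hn : 3 ≤ Fintype.card V) (x : V) : α x ≠ x ∧ α (α x) ≠ x := by
  have h0 := h.lt x
  have h1 := h.step x
  have h2 := h.step (α x)
  have h3 := h.lt (α x)
  constructor
  · intro hx
    rw [hx] at h1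
    rcases Nat.lt_or_ge (a x + 1) (Fintype.card V) with hl | hl
    · rw [Nat.mod_eq_of_lt hl] at h1
      omega
    · have he : a x + 1 = Fintype.card V := by omega
      rw [he, Nat.mod_self] at h1
      omega
  · intro hx
    rw [hx] at h2
    rcases Nat.lt_or_ge (a x + 1) (Fintype.card V) with hl | hl
    · rw [Nat.mod_eq_of_lt hl] at h1
      rcases Nat.lt_or_ge (a (α x) + 1) (Fintype.card V) with hl2 | hl2
      · rw [Nat.mod_eq_of_lt hl2] at h2
        omega
      · have he : a (α x) + 1 = Fintype.card V := by omega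
        rw [he, Nat.mod_self] at h2
        omega
    · have he : a x + 1 = Fintype.card V := by omega
      rw [he, Nat.mod_self] at h1
      rcases Nat.lt_or_ge (a (α x) + 1) (Fintype.card V) with hl2 | hl2
      · rw [Nat.mod_eq_of_lt hl2] at h2
        omega
      · omega

/-- the three colours as elements of `ZMod 3` -/
private def Fn_c (p : K) : ZMod 3 := if p = k0 then 0 else if p = k1 then 1 else 2

private lemma Fn_c0 : ∀ p : K, p ≠ 0 → (Fn_c p = 0 ↔ p = k0) ∧ (Fn_c p = 1 ↔ p = k1) ∧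
    (Fn_c p = 2 ↔ p = k2) := by
  decide

private lemma Fn_cc : ∀ p q : K, p ≠ 0 → q ≠ 0 → (Fn_c q = Fn_c p ↔ q = p) := by
  decide

private lemma Fn_om : ∀ p q : K, p ≠ 0 → q ≠ 0 → om p q = if q = p then 0 else 1 := by
  decide

private lemma Fn_bil {V : Type} [Fintype V] (Q : V → V → ZMod 2) (v : V → K) (x : V) :
    om (v x) (L Q v x) = ∑ y, Q x y * om (v x) (v y) := by
  unfold om L
  rw [Finset.mul_sum, Finset.mul_sum, ← Finset.sum_add_distrib]
  exact Finset.sum_congr rfl fun y _ => by ring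

private lemma Fn_dg {V : Type} [Fintype V] (Q : V → V → ZMod 2) (hQ : EvG Q) (v : V → K)
    (hv : ∀ x, Gd Q v x) (x : V) : Dg Q (fun x => Fn_c (v x)) x = 0 := by
  have h1 := (hv x).2
  rw [Fn_bil] at h1
  have h2 := hQ.deg x
  unfold Dg
  have h3 : (∑ y, if Fn_c (v y) = Fn_c (v x) then Q x y else 0) +
      ∑ y, Q x y * om (v x) (v y) = ∑ y, Q x y := by
    rw [← Finset.sum_add_distrib]
    refine Finset.sum_congr rfl fun y _ => ?_
    rw [Fn_om (v x) (v y) (hv x).1 (hv y).1]
    by_cases h : v y = v x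
    · rw [if_pos h, if_pos ((Fn_cc (v x) (v y) (hv x).1 (hv y).1).2 h), mul_zero, add_zero]
    · rw [if_neg h, if_neg (fun h' => h ((Fn_cc (v x) (v y) (hv x).1 (hv y).1).1 h')), mul_one,
        zero_add]
  rw [h1, h2, add_zero] at h3
  exact h3

theorem thm_Fn (hPf : St_Pf) (hEq : St_Eq) (hSg : St_Sg) (hHm : St_Hm) (hQe : St_Qe)
    (hAsm : St_Asm) : St_Fn := by
  intro V _ _ G v w A B hA hB hdis hcov h4 σ hσ hsign
  obtain ⟨α, a, hαa, hAi, hAe⟩ := hHm V G v A hA
  obtain ⟨β, b, hβb, hBi, hBe⟩ := hHm V G w B hB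
  have hn : 3 ≤ Fintype.card V := by
    have h1 := hA.isCycle.three_le_length
    have h2 := hA.length_eq
    omega
  have hreg : Reg4 α β := by
    refine ⟨fun x => (Fn_cyc hαa hn x).1, fun x => (Fn_cyc hβb hn x).1,
      fun x => (Fn_cyc hαa hn x).2, fun x => (Fn_cyc hβb hn x).2, ?_, ?_, ?_⟩
    · intro x hx
      exact hdis s(x, α x) ((hAe x (α x)).2 (Or.inl rfl)) ((hBe x (α x)).2 (Or.inl hx))
    · intro x hx
      exact hdis s(x, β x) ((hAe x (β x)).2 (Or.inr hx.symm)) ((hBe x (β x)).2 (Or.inl rfl))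
    · intro x hx
      exact hdis s(x, α x) ((hAe x (α x)).2 (Or.inl rfl)) ((hBe x (α x)).2 (Or.inr hx.symm))
  have hG : PG α β = G := by
    ext x y
    unfold PG
    rw [SimpleGraph.fromRel_adj]
    constructor
    · rintro ⟨-, (h | h) | (h | h)⟩
      · have := (hAe x y).2 (Or.inl h)
        exact A.edges_subset_edgeSet this
      · have := (hBe x y).2 (Or.inl h)
        exact B.edges_subset_edgeSet this
      · have := (hAe x y).2 (Or.inr h)
        exact A.edges_subset_edgeSet this
      · have := (hBe x y).2 (Or.inr h)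
        exact B.edges_subset_edgeSet this
    · intro h
      refine ⟨h.ne, ?_⟩
      rcases hcov s(x, y) (G.mem_edgeSet.2 h) with he | he
      · rcases (hAe x y).1 he with h1 | h1
        · exact Or.inl (Or.inl h1)
        · exact Or.inr (Or.inl h1)
      · rcases (hBe x y).1 he with h1 | h1
        · exact Or.inl (Or.inr h1)
        · exact Or.inr (Or.inr h1)
  rw [← hG]
  obtain ⟨k, hk⟩ : ∃ k, Fintype.card V = 4 * k + 1 := ⟨Fintype.card V / 4, by omega⟩
  have hodd : Odd (Fintype.card V) := ⟨2 * k, by omega⟩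
  have hEv := hQe V α β a b hαa hβb hodd
  have hs : Equiv.Perm.sign σ = (-1) ^ iv a b := by
    refine hSg V a b σ hαa.inj hαa.lt hβb.inj hβb.lt fun x => ?_
    have h1 : A.getVert (a x) = x := hαa.inj (hAi (a x) (hαa.lt x))
    have h2 := hσ (a x) (hαa.lt x)
    rw [h1] at h2
    rw [← h2]
    exact hBi (a x) (hαa.lt x)
  have hk2 : (Fintype.card V - 1) / 4 = k := by omega
  rw [hk2, hs] at hsign
  have hpar : Odd (k + iv a b) := by
    by_contra hne
    rw [Nat.not_odd_iff_even] at hne
    apply hsign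
    rcases Nat.even_or_odd k with h | h
    · have h' : Even (iv a b) := (Nat.even_add.1 hne).1 h
      rw [h.neg_one_pow, h'.neg_one_pow]
    · have h' : Odd (iv a b) := by
        rw [← Nat.not_even_iff_odd] at h ⊢
        exact fun h2 => h ((Nat.even_add.1 hne).2 h2)
      rw [h.neg_one_pow, h'.neg_one_pow]
  have hpar2 : Odd (k + ed (Qf a b) a ∅) := by
    have h1 := hEq V α β a b hαa hβb h4
    rw [ZMod.natCast_eq_natCast_iff'] at h1
    rw [Nat.odd_iff] at hpar ⊢
    omega
  obtain ⟨u, hu, hu0, hu1, hu2⟩ := hPf V (Qf a b) hEv a hαa.inj k hk hpar2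
  refine hAsm V α β a b hreg hαa hβb hodd (fun x => Fn_c (u x)) ?_ (Fn_dg _ hEv u hu)
  intro i
  have hi : i = 0 ∨ i = 1 ∨ i = 2 := by
    revert i
    decide
  rcases hi with rfl | rfl | rfl
  · have h : (univ.filter fun x => Fn_c (u x) = 0) = univ.filter fun x => u x = k0 := by
      ext x
      rw [Finset.mem_filter, Finset.mem_filter, (Fn_c0 (u x) (hu x).1).1]
    rw [h]
    exact hu0
  · have h : (univ.filter fun x => Fn_c (u x) = 1) = univ.filter fun x => u x = k1 := by
      ext x
      rw [Finset.mem_filter, Finset.mem_filter, (Fn_c0 (u x) (hu x).1).2.1]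
    rw [h]
    exact hu1
  · have h : (univ.filter fun x => Fn_c (u x) = 2) = univ.filter fun x => u x = k2 := by
      ext x
      rw [Finset.mem_filter, Finset.mem_filter, (Fn_c0 (u x) (hu x).1).2.2]
    rw [h]
    exact hu2

end Pool.Agent.ECM
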