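import Pool.Agent.ECM.St

/-!
# ECM: [Hm] the cyclic order of a Hamiltonian cycle, with positions (MP_854819_co)
-/

set_option autoImplicit false

namespace Pool.Agent.ECM

open SimpleGraph Pool.Agent.ECH

private theorem Hm_bij {V : Type} [Fintype V] [DecidableEq V] {G : SimpleGraph V} {v : V}
    {A : G.Walk v v} (hA : A.IsHamiltonianCycle) :
    Function.Bijective (fun i : Fin (Fintype.card V) => A.getVert i) := by
  have hlen := hA.length_eq
  have h3 := hA.isCycle.three_le_length
  rw [Fintype.bijective_iff_injective_and_card]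
  refine ⟨?_, by simp⟩
  intro i j hij
  have hi := i.2
  have hj := j.2
  apply Fin.ext
  exact hA.isCycle.getVert_injOn' (by simp only [Set.mem_ofPred_eq]; omega)
    (by simp only [Set.mem_ofPred_eq]; omega) hij

theorem thm_Hm : St_Hm := by
  intro V _ _ G v A hA
  have hlen := hA.length_eq
  have h3 := hA.isCycle.three_le_length
  have hn : 0 < Fintype.card V := by omega
  let e : Fin (Fintype.card V) ≃ V := Equiv.ofBijective _ (Hm_bij hA)
  have he : ∀ i : Fin (Fintype.card V), e i = A.getVert i := fun i => rfl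
  have : NeZero (Fintype.card V) := ⟨by omega⟩
  let α : Equiv.Perm V := (e.symm.trans (Equiv.addRight (1 : Fin (Fintype.card V)))).trans e
  have hα : ∀ x, α x = e (e.symm x + 1) := fun x => rfl
  have hval : ∀ i : Fin (Fintype.card V), ((i + 1 : Fin (Fintype.card V)) : ℕ) =
      ((i : ℕ) + 1) % Fintype.card V := by
    intro i
    rw [Fin.val_add, Fin.coe_ofNat_eq_mod]
    exact Nat.add_mod_mod _ _ _
  have hget : ∀ i : Fin (Fintype.card V), e (i + 1) = A.getVert ((i : ℕ) + 1) := by
    intro i
    rw [he, hval]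
    rcases Nat.lt_or_ge ((i : ℕ) + 1) (Fintype.card V) with h | h
    · rw [Nat.mod_eq_of_lt h]
    · have hi := i.2
      have h' : (i : ℕ) + 1 = Fintype.card V := by omega
      rw [h', Nat.mod_self, A.getVert_zero, ← hlen, A.getVert_length]
  refine ⟨α, fun x => (e.symm x : ℕ), ⟨?_, fun x => (e.symm x).2, ?_⟩, ?_, ?_⟩
  · intro x y hxy
    exact e.symm.injective (Fin.ext hxy)
  · intro x
    rw [hα, Equiv.symm_apply_apply, hval]
  · intro i hi
    show ((e.symm (A.getVert i) : Fin (Fintype.card V)) : ℕ) = i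
    have h1 : A.getVert i = e ⟨i, hi⟩ := rfl
    rw [h1, Equiv.symm_apply_apply]
  · intro x y
    rw [Walk.mk_mem_edges_iff_exists]
    constructor
    · rintro ⟨i, hi, h⟩
      have h1 : A.getVert i = e ⟨i, by omega⟩ := rfl
      have h2 : A.getVert (i + 1) = e ((⟨i, by omega⟩ : Fin (Fintype.card V)) + 1) := by
        rw [hget]
      have h3 : A.getVert (i + 1) = α (A.getVert i) := by
        rw [hα, h2, h1, Equiv.symm_apply_apply]
      rw [Sym2.eq_iff] at h
      rcases h with ⟨hx, hy⟩ | ⟨hx, hy⟩
      · left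
        rw [← hx, ← hy, h3]
      · right
        rw [← hx, ← hy, h3]
    · have key : ∀ z, ∃ i < A.length, A.getVert i = z ∧ A.getVert (i + 1) = α z := by
        intro z
        refine ⟨(e.symm z : ℕ), by rw [hlen]; exact (e.symm z).2, ?_, ?_⟩
        · have := he (e.symm z)
          rw [Equiv.apply_symm_apply] at this
          exact this.symm
        · rw [hα, hget]
      rintro (h | h)
      · obtain ⟨i, hi, h1, h2⟩ := key x
        exact ⟨i, hi, by rw [h1, h2, h]⟩
      · obtain ⟨i, hi, h1, h2⟩ := key y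
        exact ⟨i, hi, by rw [h1, h2, h, Sym2.eq_swap]⟩

end Pool.Agent.ECM
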