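import Pool.Agent.ECM.St

/-!
# ECM, module Ho (helper81): the colourings with `d = 0`, modulo two
-/

set_option autoImplicit false

namespace Pool.Agent.ECM

private theorem Ho_gd {V : Type} [Fintype V] (Q : V → V → ZMod 2) (v : V → K) (x : V)
    (h : Gd Q v x) : Gd Q (swp v) x := by
  obtain ⟨h1, h2⟩ := h
  refine ⟨fun h0 => h1 ?_, ?_⟩
  · have e1 : (v x).2 = 0 := congrArg Prod.fst h0
    have e2 : (v x).1 = 0 := congrArg Prod.snd h0
    exact Prod.ext e2 e1
  · show om ((v x).2, (v x).1) ((L Q v x).2, (L Q v x).1) = 0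
    rw [← h2]
    unfold om
    ring

private theorem Ho_card {V : Type} [Fintype V] [DecidableEq V] (S : Finset (V → K))
    (hS : ∀ v ∈ S, swp v ∈ S) :
    (S.card : ZMod 2) = ((S.filter fun v => swp v = v).card : ZMod 2) := by
  have h1 : ∑ v ∈ S.filter (fun v => ¬ swp v = v), (1 : ZMod 2) = 0 := by
    refine Finset.sum_involution (fun v _ => swp v) ?_ ?_ ?_ ?_
    · intro v _
      exact CharTwo.add_self_eq_zero 1
    · intro v hv _
      exact (Finset.mem_filter.1 hv).2
    · intro v hv
      obtain ⟨h2, h3⟩ := Finset.mem_filter.1 hv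
      exact Finset.mem_filter.2 ⟨hS v h2, fun h => h3 h.symm⟩
    · intro v _
      rfl
  have h2 := Finset.sum_filter_add_sum_filter_not S (fun v => swp v = v) (fun _ => (1 : ZMod 2))
  rw [h1, add_zero] at h2
  simpa using h2.symm

private theorem Ho_val : ∀ p : K, (p.2, p.1) = p → p = 0 ∨ p = k2 := by decide

private theorem Ho_om : ∀ s : ZMod 2, om k2 (s, s) = 0 := by decide

private theorem Ho_fix {V : Type} (v : V → K) (h : swp v = v) (z : V) : v z = 0 ∨ v z = k2 :=
  Ho_val _ (congrFun h z)

private theorem Ho_diag {V : Type} (v : V → K) (h : ∀ z, v z = 0 ∨ v z = k2) (z : V) :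
    (v z).2 = (v z).1 := by
  rcases h z with h1 | h1 <;> rw [h1] <;> rfl

private theorem Ho_swp {V : Type} (v : V → K) (h : ∀ z, v z = 0 ∨ v z = k2) : swp v = v := by
  funext z
  exact Prod.ext (Ho_diag v h z) (Ho_diag v h z).symm

private theorem Ho_L {V : Type} [Fintype V] (Q : V → V → ZMod 2) (v : V → K)
    (h : ∀ z, v z = 0 ∨ v z = k2) (x : V) :
    L Q v x = (∑ y, Q x y * (v y).1, ∑ y, Q x y * (v y).1) := by
  unfold L
  exact Prod.ext rfl (Finset.sum_congr rfl fun y _ => by rw [Ho_diag v h y])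

private theorem Ho_good {V : Type} [Fintype V] (Q : V → V → ZMod 2) (v : V → K)
    (h : ∀ z, v z = 0 ∨ v z = k2) (x : V) (hx : v x = k2) : Gd Q v x := by
  refine ⟨by rw [hx]; decide, ?_⟩
  rw [hx, Ho_L Q v h x]
  exact Ho_om _

/-- the colouring with the value `k2` outside of `D` -/
private def Ho_v {V : Type} [DecidableEq V] (D : Finset V) (z : V) : K := if z ∈ D then 0 else k2

private theorem Ho_v_val {V : Type} [DecidableEq V] (D : Finset V) (z : V) :
    Ho_v D z = 0 ∨ Ho_v D z = k2 := by
  unfold Ho_v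
  split_ifs
  · exact Or.inl rfl
  · exact Or.inr rfl

private theorem Ho_eq {V : Type} [Fintype V] [DecidableEq V] (D : Finset V)
    (v : V → K) (h : swp v = v) (h0 : ∀ z ∈ D, v z = 0) (h1 : ∀ z, z ∉ D → v z ≠ 0) :
    v = Ho_v D := by
  funext z
  unfold Ho_v
  by_cases hz : z ∈ D
  · rw [if_pos hz, h0 z hz]
  · rw [if_neg hz]
    exact (Ho_fix v h z).resolve_left (h1 z hz)

private theorem Ho_sum {V : Type} [Fintype V] [DecidableEq V] (Q : V → V → ZMod 2) (D : Finset V)
    (x : V) (hx : x ∉ D) (hQ : Q x x = 0) :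
    ∑ y, Q x y * (Ho_v (insert x D) y).1 = ∑ y ∈ Dᶜ, Q x y := by
  have h1 : ∑ y ∈ Dᶜ, Q x y = ∑ y, if y ∈ Dᶜ then Q x y else 0 := by
    rw [Finset.sum_ite_mem, Finset.univ_inter]
  rw [h1]
  refine Finset.sum_congr rfl fun y _ => ?_
  unfold Ho_v
  by_cases hy : y = x
  · subst hy
    rw [if_pos (Finset.mem_insert_self _ _), hQ, zero_mul]
    split_ifs <;> rfl
  · by_cases hD : y ∈ D
    · rw [if_pos (Finset.mem_insert_of_mem hD), if_neg (fun h => (Finset.mem_compl.1 h) hD)]
      show Q x y * 0 = 0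
      rw [mul_zero]
    · rw [if_neg (fun h => (Finset.mem_insert.1 h).elim hy hD), if_pos (Finset.mem_compl.2 hD)]
      show Q x y * 1 = Q x y
      rw [mul_one]

theorem thm_Ho : St_Ho := by
  intro V _ _ Q D
  refine ⟨?_, fun x hx hQ => ?_⟩
  · have h1 : (NN Q D (fun _ => 0) : ZMod 2) = 1 := by
      unfold NN
      rw [Ho_card]
      · have h2 : ((Finset.univ.filter fun v : V → K => (∀ z ∈ D, v z = (fun _ => 0) z) ∧
            ∀ z, z ∉ D → Gd Q v z).filter fun v => swp v = v) = {Ho_v D} := by
          ext v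
          simp only [Finset.mem_filter, Finset.mem_univ, true_and, Finset.mem_singleton]
          constructor
          · rintro ⟨⟨h3, h4⟩, h5⟩
            exact Ho_eq D v h5 h3 fun z hz => (h4 z hz).1
          · rintro rfl
            refine ⟨⟨fun z hz => if_pos hz, fun z hz => ?_⟩, Ho_swp _ (Ho_v_val D)⟩
            exact Ho_good Q _ (Ho_v_val D) z (if_neg hz)
        rw [h2, Finset.card_singleton, Nat.cast_one]
      · intro v hv
        simp only [Finset.mem_filter, Finset.mem_univ, true_and] at hv ⊢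
        refine ⟨fun z hz => ?_, fun z hz => Ho_gd Q v z (hv.2 z hz)⟩
        show ((v z).2, (v z).1) = 0
        rw [hv.1 z hz]
        rfl
    rcases Nat.even_or_odd (NN Q D (fun _ => 0)) with h | h
    · exfalso
      rw [(ZMod.natCast_eq_zero_iff_even).2 h] at h1
      exact absurd h1 (by decide)
    · exact h
  · unfold NX
    rw [Ho_card]
    · obtain ⟨s, hs⟩ : ∃ s, s = ∑ y ∈ Dᶜ, Q x y := ⟨_, rfl⟩
      have hL : L Q (Ho_v (insert x D)) x = (s, s) := by
        rw [Ho_L Q _ (Ho_v_val _) x, Ho_sum Q D x hx hQ, hs]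
      have key : ∀ v : V → K, v ∈ ((Finset.univ.filter fun v : V → K =>
          (∀ z ∈ D, v z = (fun _ => 0) z) ∧ v x = 0 ∧ L Q v x = 0 ∧
          ∀ z, z ∉ D → z ≠ x → Gd Q v z).filter fun v => swp v = v) ↔
          (v = Ho_v (insert x D) ∧ s = 0) := by
        intro v
        simp only [Finset.mem_filter, Finset.mem_univ, true_and]
        constructor
        · rintro ⟨⟨h3, h4, h5, h6⟩, h7⟩
          have h8 : v = Ho_v (insert x D) := by
            refine Ho_eq (insert x D) v h7 (fun z hz => ?_) fun z hz => ?_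
            · rcases Finset.mem_insert.1 hz with rfl | h9
              · exact h4
              · exact h3 z h9
            · exact (h6 z (fun h => hz (Finset.mem_insert_of_mem h))
                (fun h => hz (by rw [h]; exact Finset.mem_insert_self _ _))).1
          refine ⟨h8, ?_⟩
          rw [h8, hL] at h5
          exact congrArg Prod.fst h5
        · rintro ⟨rfl, h0⟩
          refine ⟨⟨fun z hz => if_pos (Finset.mem_insert_of_mem hz),
            if_pos (Finset.mem_insert_self _ _), ?_, fun z hz hzx => ?_⟩, Ho_swp _ (Ho_v_val _)⟩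
          · rw [hL, h0]
            rfl
          · exact Ho_good Q _ (Ho_v_val _) z (if_neg fun h => (Finset.mem_insert.1 h).elim hzx hz)
      rw [← hs]
      by_cases h0 : s = 0
      · have h2 : ((Finset.univ.filter fun v : V → K =>
            (∀ z ∈ D, v z = (fun _ => 0) z) ∧ v x = 0 ∧ L Q v x = 0 ∧
            ∀ z, z ∉ D → z ≠ x → Gd Q v z).filter fun v => swp v = v) = {Ho_v (insert x D)} := by
          ext v
          rw [key v, Finset.mem_singleton]
          exact ⟨fun h => h.1, fun h => ⟨h, h0⟩⟩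
        rw [h2, Finset.card_singleton, h0, Nat.cast_one, add_zero]
      · have h2 : ((Finset.univ.filter fun v : V → K =>
            (∀ z ∈ D, v z = (fun _ => 0) z) ∧ v x = 0 ∧ L Q v x = 0 ∧
            ∀ z, z ∉ D → z ≠ x → Gd Q v z).filter fun v => swp v = v) = ∅ := by
          refine Finset.eq_empty_of_forall_notMem fun v hv => h0 ((key v).1 hv).2
        have h3 : ∀ t : ZMod 2, t ≠ 0 → (0 : ZMod 2) = 1 + t := by decide
        rw [h2, Finset.card_empty, Nat.cast_zero]
        exact h3 s h0
    · intro v hv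
      simp only [Finset.mem_filter, Finset.mem_univ, true_and] at hv ⊢
      obtain ⟨h3, h4, h5, h6⟩ := hv
      refine ⟨fun z hz => ?_, ?_, ?_, fun z hz hzx => Ho_gd Q v z (h6 z hz hzx)⟩
      · show ((v z).2, (v z).1) = 0
        rw [h3 z hz]
        rfl
      · show ((v x).2, (v x).1) = 0
        rw [h4]
        rfl
      · show ((L Q v x).2, (L Q v x).1) = 0
        rw [h5]
        rfl

end Pool.Agent.ECM
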