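import Pool.Agent.ECM.St

/-!
# ECM [Nb]: two numbers
-/

set_option autoImplicit false

namespace Pool.Agent.ECM

/-- the ordered pairs in `W` -/
private def Nb_C {V : Type} [DecidableEq V] (r : V → ℕ) (W : Finset V) : Finset (V × V) :=
  (W ×ˢ W).filter fun p => r p.1 < r p.2

private lemma Nb_C_card {V : Type} [DecidableEq V] (r : V → ℕ) (hr : Function.Injective r)
    (W : Finset V) : 2 * (Nb_C r W).card + W.card = W.card * W.card := by
  classical
  have h1 : ((W ×ˢ W).filter fun p : V × V => r p.2 < r p.1).card = (Nb_C r W).card := by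
    refine Finset.card_bij (fun p _ => (p.2, p.1)) ?_ ?_ ?_
    · intro p hp
      simp only [Nb_C, Finset.mem_filter, Finset.mem_product] at hp ⊢
      exact ⟨⟨hp.1.2, hp.1.1⟩, hp.2⟩
    · intro p _ q _ h
      simp only [Prod.mk.injEq] at h
      exact Prod.ext h.2 h.1
    · intro p hp
      simp only [Nb_C, Finset.mem_filter, Finset.mem_product] at hp
      refine ⟨(p.2, p.1), ?_, rfl⟩
      simp only [Finset.mem_filter, Finset.mem_product]
      exact ⟨⟨hp.1.2, hp.1.1⟩, hp.2⟩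
  have h2 : W.offDiag = Nb_C r W ∪ (W ×ˢ W).filter fun p : V × V => r p.2 < r p.1 := by
    ext p
    simp only [Nb_C, Finset.mem_offDiag, Finset.mem_union, Finset.mem_filter, Finset.mem_product]
    constructor
    · rintro ⟨ha, hb, hne⟩
      have : r p.1 ≠ r p.2 := fun h => hne (hr h)
      rcases lt_or_gt_of_ne this with h | h
      · exact Or.inl ⟨⟨ha, hb⟩, h⟩
      · exact Or.inr ⟨⟨ha, hb⟩, h⟩
    · rintro (⟨⟨ha, hb⟩, h⟩ | ⟨⟨ha, hb⟩, h⟩)
      · exact ⟨ha, hb, fun e => by rw [e] at h; exact lt_irrefl _ h⟩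
      · exact ⟨ha, hb, fun e => by rw [e] at h; exact lt_irrefl _ h⟩
  have h3 : Disjoint (Nb_C r W) ((W ×ˢ W).filter fun p : V × V => r p.2 < r p.1) := by
    rw [Finset.disjoint_left]
    intro p hp hq
    simp only [Nb_C, Finset.mem_filter] at hp hq
    exact lt_asymm hp.2 hq.2
  have h4 := Finset.offDiag_card W
  rw [h2, Finset.card_union_of_disjoint h3, h1] at h4
  have h5 : W.card ≤ W.card * W.card := Nat.le_mul_self _
  omega

/-- the triples in `W` -/
private def Nb_T {V : Type} [Fintype V] [DecidableEq V] (r : V → ℕ) (W : Finset V) :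
    Finset (V × V × V) :=
  (TT r).filter fun t => t.1 ∈ W ∧ t.2.1 ∈ W ∧ t.2.2 ∈ W

private lemma Nb_T_card {V : Type} [Fintype V] [DecidableEq V] (r : V → ℕ)
    (W : Finset V) : (Nb_T r W).card = (Nb_C r W).card * (W.card - 2) := by
  classical
  have h1 : ∀ t ∈ Nb_T r W, (t.1, t.2.1) ∈ Nb_C r W := by
    intro t ht
    simp only [Nb_T, TT, Nb_C, Finset.mem_filter, Finset.mem_univ, true_and,
      Finset.mem_product] at ht ⊢
    exact ⟨⟨ht.2.1, ht.2.2.1⟩, ht.1.1⟩
  rw [Finset.card_eq_sum_card_fiberwise (f := fun t : V × V × V => (t.1, t.2.1)) h1,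
    Finset.sum_const_nat (m := W.card - 2)]
  intro p hp
  simp only [Nb_C, Finset.mem_filter, Finset.mem_product] at hp
  have hne : p.1 ≠ p.2 := fun e => by
    have := hp.2
    rw [e] at this
    exact lt_irrefl _ this
  have h2 : ((W.erase p.1).erase p.2).card = W.card - 2 := by
    rw [Finset.card_erase_of_mem (Finset.mem_erase.2 ⟨fun e => hne e.symm, hp.1.2⟩),
      Finset.card_erase_of_mem hp.1.1]
    omega
  rw [← h2]
  refine Finset.card_bij (fun t _ => t.2.2) ?_ ?_ ?_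
  · intro t ht
    simp only [Nb_T, TT, Finset.mem_filter, Finset.mem_univ, true_and] at ht
    obtain ⟨⟨⟨_, ha, hb⟩, _, _, hc⟩, he⟩ := ht
    have e1 : t.1 = p.1 := congrArg Prod.fst he
    have e2 : t.2.1 = p.2 := congrArg Prod.snd he
    rw [Finset.mem_erase, Finset.mem_erase]
    exact ⟨fun e => hb (e.trans e2.symm), fun e => ha (e.trans e1.symm), hc⟩
  · intro t ht t' ht' h
    simp only [Nb_T, TT, Finset.mem_filter, Finset.mem_univ, true_and] at ht ht'
    have e1 : t.1 = t'.1 := (congrArg Prod.fst ht.2).trans (congrArg Prod.fst ht'.2).symm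
    have e2 : t.2.1 = t'.2.1 := (congrArg Prod.snd ht.2).trans (congrArg Prod.snd ht'.2).symm
    exact Prod.ext e1 (Prod.ext e2 h)
  · intro s hs
    rw [Finset.mem_erase, Finset.mem_erase] at hs
    refine ⟨(p.1, p.2, s), ?_, rfl⟩
    simp only [Nb_T, TT, Finset.mem_filter, Finset.mem_univ, true_and]
    exact ⟨⟨⟨hp.2, hs.2.1, hs.1⟩, hp.1.1, hp.1.2, hs.2.2⟩, trivial⟩

private lemma Nb_fst {V : Type} [Fintype V] [DecidableEq V] (r : V → ℕ)
    (hr : Function.Injective r) (k : ℕ) (hk : Fintype.card V = 4 * k + 1) :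
    ((TT r).card : ZMod 4) = 2 * (k : ZMod 4) := by
  classical
  have h1 : Nb_T r Finset.univ = TT r := by
    unfold Nb_T
    rw [Finset.filter_true_of_mem]
    intro t _
    exact ⟨Finset.mem_univ _, Finset.mem_univ _, Finset.mem_univ _⟩
  have h2 := Nb_T_card r (Finset.univ : Finset V)
  have h3 := Nb_C_card r hr (Finset.univ : Finset V)
  rw [Finset.card_univ, hk] at h2 h3
  rw [h1] at h2
  have h4 : (Nb_C r (Finset.univ : Finset V)).card = 2 * k * (4 * k + 1) := by nlinarith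
  rw [h4] at h2
  rcases Nat.eq_zero_or_pos k with hk0 | hk0
  · subst hk0
    simp only [h2]
    simp
  · have h5 : (4 * k + 1 - 2 : ℕ) = 4 * (k - 1) + 3 := by omega
    rw [h2, h5]
    push_cast
    have h6 : (4 : ZMod 4) = 0 := rfl
    rw [h6]
    have h7 : ((3 : ZMod 4)) = -1 := rfl
    rw [h7]
    have h8 : (2 : ZMod 4) * (k : ZMod 4) * (-1) = 2 * (k : ZMod 4) := by
      have h9 : (2 : ZMod 4) * (-1) = 2 := rfl
      calc (2 : ZMod 4) * (k : ZMod 4) * (-1) = (2 * (-1)) * (k : ZMod 4) := by ring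
        _ = 2 * (k : ZMod 4) := by rw [h9]
    calc (2 : ZMod 4) * (k : ZMod 4) * (0 * (k : ZMod 4) + 1) * (0 * ((k - 1 : ℕ) : ZMod 4) + -1)
        = 2 * (k : ZMod 4) * (-1) := by ring
      _ = 2 * (k : ZMod 4) := h8

private lemma Nb_odd {V : Type} [Fintype V] [DecidableEq V] (r : V → ℕ)
    (hr : Function.Injective r) (k : ℕ) (hk : Fintype.card V = 4 * k + 1) (p : V × V)
    (hp : r p.1 < r p.2) :
    (((TT r).filter fun t => p.1 ∉ Ts t ∧ p.2 ∉ Ts t).card : ZMod 2) = 1 := by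
  classical
  have hne : p.1 ≠ p.2 := fun e => by
    rw [e] at hp
    exact lt_irrefl _ hp
  have h1 : ((TT r).filter fun t => p.1 ∉ Ts t ∧ p.2 ∉ Ts t) =
      Nb_T r ((Finset.univ.erase p.1).erase p.2) := by
    unfold Nb_T
    ext t
    simp only [Finset.mem_filter, Ts, Finset.mem_insert, Finset.mem_singleton,
      Finset.mem_erase, Finset.mem_univ, and_true, not_or, ne_eq]
    constructor
    · rintro ⟨ht, ⟨a1, a2, a3⟩, b1, b2, b3⟩
      exact ⟨ht, ⟨fun e => b1 e.symm, fun e => a1 e.symm⟩, ⟨fun e => b2 e.symm, fun e => a2 e.symm⟩,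
        fun e => b3 e.symm, fun e => a3 e.symm⟩
    · rintro ⟨ht, ⟨b1, a1⟩, ⟨b2, a2⟩, b3, a3⟩
      exact ⟨ht, ⟨fun e => a1 e.symm, fun e => a2 e.symm, fun e => a3 e.symm⟩,
        fun e => b1 e.symm, fun e => b2 e.symm, fun e => b3 e.symm⟩
  have hw : ((Finset.univ.erase p.1).erase p.2 : Finset V).card = 4 * k + 1 - 2 := by
    rw [Finset.card_erase_of_mem (Finset.mem_erase.2 ⟨fun e => hne e.symm, Finset.mem_univ _⟩),
      Finset.card_erase_of_mem (Finset.mem_univ _), Finset.card_univ, hk]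
    omega
  have hk1 : 1 ≤ k := by
    by_contra h
    have h0 : k = 0 := by omega
    subst h0
    have : Fintype.card V ≤ 1 := by omega
    exact hne (Fintype.card_le_one_iff.1 this _ _)
  obtain ⟨j, rfl⟩ : ∃ j, k = j + 1 := ⟨k - 1, by omega⟩
  have h2 := Nb_T_card r ((Finset.univ.erase p.1).erase p.2 : Finset V)
  have h3 := Nb_C_card r hr ((Finset.univ.erase p.1).erase p.2 : Finset V)
  have hw' : ((Finset.univ.erase p.1).erase p.2 : Finset V).card = 4 * j + 3 := by
    rw [hw]; omega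
  rw [hw'] at h2 h3
  have h4 : (Nb_C r ((Finset.univ.erase p.1).erase p.2 : Finset V)).card =
      (4 * j + 3) * (2 * j + 1) := by nlinarith
  have h5 : (4 * j + 3 - 2 : ℕ) = 4 * j + 1 := by omega
  rw [h1, h2, h4, h5]
  push_cast
  have h6 : (4 : ZMod 2) = 0 := rfl
  have h7 : (3 : ZMod 2) = 1 := rfl
  have h8 : (2 : ZMod 2) = 0 := rfl
  rw [h6, h7, h8]
  ring

theorem thm_Nb : St_Nb := by
  intro V _ _ r hr k hk
  refine ⟨Nb_fst r hr k hk, fun Q => ?_⟩
  classical
  have h1 : ∀ t : V × V × V, ed Q r (Ts t) =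
      ∑ p ∈ Finset.univ.filter (fun p : V × V => r p.1 < r p.2 ∧ Q p.1 p.2 = 1),
        if p.1 ∉ Ts t ∧ p.2 ∉ Ts t then 1 else 0 := by
    intro t
    rw [← Finset.sum_filter, Finset.sum_const, smul_eq_mul, mul_one, Finset.filter_filter]
    unfold ed
    congr 1
    ext p
    simp only [Finset.mem_filter, Finset.mem_univ, true_and]
    tauto
  have h2 : ∑ t ∈ TT r, ed Q r (Ts t) =
      ∑ p ∈ Finset.univ.filter (fun p : V × V => r p.1 < r p.2 ∧ Q p.1 p.2 = 1),
        ((TT r).filter fun t => p.1 ∉ Ts t ∧ p.2 ∉ Ts t).card := by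
    rw [Finset.sum_congr rfl fun t _ => h1 t, Finset.sum_comm]
    refine Finset.sum_congr rfl fun p _ => ?_
    rw [← Finset.sum_filter, Finset.sum_const, smul_eq_mul, mul_one]
  rw [h2, Nat.cast_sum, Finset.sum_congr rfl fun p hp =>
    Nb_odd r hr k hk p (Finset.mem_filter.1 hp).2.1, Finset.sum_const, nsmul_eq_mul, mul_one]
  unfold ed
  congr 2
  ext p
  simp only [Finset.mem_filter, Finset.mem_univ, true_and, Finset.notMem_empty, not_false_iff]

end Pool.Agent.ECM
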