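import Pool.Agent.ECM.St

set_option autoImplicit false

namespace Pool.Agent.ECM

private lemma nh_ne_one {z : ZMod 2} (h : z ≠ 1) : z = 0 := by
  revert h; revert z; decide

private lemma nh_zero {V : Type} [Fintype V] [DecidableEq V] {Q : V → V → ZMod 2} (hQ : SyG Q)
    {r : V → ℕ} (hr : Function.Injective r) {D : Finset V} (h0 : ed Q r D = 0) :
    ∀ x, x ∉ D → ∀ y, y ∉ D → Q x y = 0 := by
  have key : ∀ x, x ∉ D → ∀ y, y ∉ D → r x < r y → Q x y = 0 := by
    intro x hx y hy hxy
    apply nh_ne_one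
    intro h1
    unfold ed at h0
    rw [Finset.card_eq_zero] at h0
    have hm : (x, y) ∈ Finset.univ.filter
        (fun p : V × V => r p.1 < r p.2 ∧ p.1 ∉ D ∧ p.2 ∉ D ∧ Q p.1 p.2 = 1) := by
      simp only [Finset.mem_filter, Finset.mem_univ, true_and]
      exact ⟨hxy, hx, hy, h1⟩
    rw [h0] at hm
    exact absurd hm (Finset.notMem_empty _)
  intro x hx y hy
  rcases lt_trichotomy (r x) (r y) with h | h | h
  · exact key x hx y hy h
  · rw [hr h]; exact hQ.diag y
  · rw [hQ.symm x y]; exact key y hy x hx h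

private lemma nh_base {V : Type} [Fintype V] [DecidableEq V] {Q : V → V → ZMod 2} (hQ : SyG Q)
    {r : V → ℕ} (hr : Function.Injective r) {D : Finset V} (h0 : ed Q r D = 0) :
    NN Q D (fun _ => 0) = 3 ^ Dᶜ.card := by
  have hz := nh_zero hQ hr h0
  have hs : (Finset.univ.filter fun v : V → K => (∀ z ∈ D, v z = (fun _ => (0 : K)) z) ∧
      ∀ z, z ∉ D → Gd Q v z) =
      Fintype.piFinset (fun z : V => if z ∈ D then ({0} : Finset K)
        else Finset.univ.filter (fun k : K => k ≠ 0)) := by
    ext v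
    simp only [Finset.mem_filter, Finset.mem_univ, true_and, Fintype.mem_piFinset]
    constructor
    · rintro ⟨h1, h2⟩ z
      by_cases hzD : z ∈ D
      · rw [if_pos hzD, Finset.mem_singleton]; exact h1 z hzD
      · rw [if_neg hzD, Finset.mem_filter]; exact ⟨Finset.mem_univ _, (h2 z hzD).1⟩
    · intro h1
      have hD : ∀ z ∈ D, v z = 0 := by
        intro z hzD
        have := h1 z
        rw [if_pos hzD, Finset.mem_singleton] at this
        exact this
      refine ⟨hD, ?_⟩
      intro z hzD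
      have h2 := h1 z
      rw [if_neg hzD, Finset.mem_filter] at h2
      refine ⟨h2.2, ?_⟩
      have hL : L Q v z = 0 := by
        unfold L
        have e1 : ∀ y, Q z y * (v y).1 = 0 := by
          intro y
          by_cases hy : y ∈ D
          · rw [hD y hy]; simp
          · rw [hz z hzD y hy]; simp
        have e2 : ∀ y, Q z y * (v y).2 = 0 := by
          intro y
          by_cases hy : y ∈ D
          · rw [hD y hy]; simp
          · rw [hz z hzD y hy]; simp
        simp only [e1, e2, Finset.sum_const_zero]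
        rfl
      rw [hL]
      simp [om]
  unfold NN
  rw [hs, Fintype.card_piFinset]
  have hc : ∀ z : V, (if z ∈ D then ({0} : Finset K)
        else Finset.univ.filter (fun k : K => k ≠ 0)).card = if z ∈ D then 1 else 3 := by
    intro z
    by_cases hzD : z ∈ D
    · rw [if_pos hzD, if_pos hzD]; rfl
    · rw [if_neg hzD, if_neg hzD]; decide
  simp only [hc]
  rw [Finset.prod_ite]
  simp only [Finset.prod_const_one, one_mul, Finset.prod_const]
  congr 1
  congr 1
  ext z
  simp

private lemma nh_tog {V : Type} [DecidableEq V] {Q : V → V → ZMod 2} (hQ : SyG Q)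
    {a b : V} (hab : a ≠ b) : SyG (tog Q a b) := by
  constructor
  · intro x
    unfold tog
    rw [hQ.diag x, if_neg, add_zero]
    rintro (⟨h1, h2⟩ | ⟨h1, h2⟩)
    · exact hab (h1.symm.trans h2)
    · exact hab (h2.symm.trans h1)
  · intro x y
    unfold tog
    rw [hQ.symm x y]
    congr 1
    by_cases h : (x = a ∧ y = b) ∨ (x = b ∧ y = a)
    · rw [if_pos h, if_pos]
      rcases h with ⟨h1, h2⟩ | ⟨h1, h2⟩
      · exact Or.inr ⟨h2, h1⟩
      · exact Or.inl ⟨h2, h1⟩
    · rw [if_neg h, if_neg]
      intro h'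
      apply h
      rcases h' with ⟨h1, h2⟩ | ⟨h1, h2⟩
      · exact Or.inr ⟨h2, h1⟩
      · exact Or.inl ⟨h2, h1⟩

private lemma nh_ed {V : Type} [Fintype V] [DecidableEq V] {Q : V → V → ZMod 2}
    {r : V → ℕ} {D : Finset V} {a b : V} (hr : r a < r b) (ha : a ∉ D) (hb : b ∉ D)
    (h1 : Q a b = 1) : ed (tog Q a b) r D + 1 = ed Q r D := by
  have hs : (Finset.univ.filter fun p : V × V => r p.1 < r p.2 ∧ p.1 ∉ D ∧ p.2 ∉ D ∧
      tog Q a b p.1 p.2 = 1) = (Finset.univ.filter fun p : V × V => r p.1 < r p.2 ∧ p.1 ∉ D ∧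
        p.2 ∉ D ∧ Q p.1 p.2 = 1).erase (a, b) := by
    ext p
    obtain ⟨x, y⟩ := p
    simp only [Finset.mem_filter, Finset.mem_univ, true_and, Finset.mem_erase, ne_eq, Prod.mk.injEq]
    constructor
    · rintro ⟨h2, h3, h4, h5⟩
      have hne : ¬ (x = a ∧ y = b) := by
        rintro ⟨rfl, rfl⟩
        unfold tog at h5
        rw [h1] at h5
        simp at h5
      refine ⟨hne, h2, h3, h4, ?_⟩
      unfold tog at h5
      rw [if_neg, add_zero] at h5
      · exact h5
      · rintro (h | ⟨rfl, rfl⟩)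
        · exact hne h
        · exact absurd h2 (not_lt.mpr hr.le)
    · rintro ⟨hne, h2, h3, h4, h5⟩
      refine ⟨h2, h3, h4, ?_⟩
      unfold tog
      rw [if_neg, add_zero]
      · exact h5
      · rintro (h | ⟨rfl, rfl⟩)
        · exact hne h
        · exact absurd h2 (not_lt.mpr hr.le)
  unfold ed
  rw [hs]
  apply Finset.card_erase_add_one
  simp only [Finset.mem_filter, Finset.mem_univ, true_and]
  exact ⟨hr, ha, hb, h1⟩

theorem thm_Nh (h : St_Tg) : St_Nh := by
  intro V _ _ Q hQ r hr D
  have key : ∀ n : ℕ, ∀ Q : V → V → ZMod 2, SyG Q → ed Q r D = n →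
      (NN Q D (fun _ => 0) : ZMod 4) = 3 ^ Dᶜ.card + 2 * (n : ZMod 4) := by
    intro n
    induction n with
    | zero =>
      intro Q hQ h0
      rw [nh_base hQ hr h0]
      simp
    | succ n ih =>
      intro Q hQ h0
      have hne : (Finset.univ.filter fun p : V × V => r p.1 < r p.2 ∧ p.1 ∉ D ∧
        p.2 ∉ D ∧ Q p.1 p.2 = 1).Nonempty := by
        rw [← Finset.card_pos]
        unfold ed at h0
        omega
      obtain ⟨⟨a, b⟩, hp⟩ := hne
      simp only [Finset.mem_filter, Finset.mem_univ, true_and] at hp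
      obtain ⟨hab, ha, hb, h1⟩ := hp
      have hne : a ≠ b := by
        rintro rfl
        exact lt_irrefl _ hab
      have e1 := nh_ed hab ha hb h1
      have e2 := ih (tog Q a b) (nh_tog hQ hne) (by omega)
      have e3 := h V Q hQ D a b hne ha hb
      rw [e3] at e2
      have e4 : (NN Q D (fun _ => 0) : ZMod 4) = 3 ^ Dᶜ.card + 2 * (n : ZMod 4) - 2 := by
        rw [← e2]; ring
      rw [e4]
      push_cast
      have e5 : (4 : ZMod 4) = 0 := by decide
      linear_combination (-1 : ZMod 4) * e5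
  exact key _ Q hQ rfl

end Pool.Agent.ECM
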