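import Pool.Agent.ECM.St

/-! # ECM: [Pf] a partition into three odd classes (MP_854819_co) -/

set_option autoImplicit false

namespace Pool.Agent.ECM

open Finset Pool.Agent.ECH

private theorem Pf_sym {V : Type} [DecidableEq V] (W : Finset V) (Q : V → V → ZMod 2)
    (h1 : ∀ x y, Q x y = Q y x) (h2 : ∀ x, Q x x = 0) : ∑ x ∈ W, ∑ y ∈ W, Q x y = 0 := by
  rw [← Finset.sum_product']
  refine Finset.sum_involution (fun p _ => (p.2, p.1)) ?_ ?_ ?_ ?_
  · rintro ⟨x, y⟩ -
    show Q x y + Q y x = 0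
    rw [h1 y x]
    generalize Q x y = q
    revert q
    decide
  · rintro ⟨x, y⟩ - hne heq
    apply hne
    have h3 : y = x := congrArg Prod.fst heq
    subst h3
    exact h2 _
  · rintro ⟨x, y⟩ h
    rw [Finset.mem_product] at h ⊢
    exact ⟨h.2, h.1⟩
  · intro p _
    rfl

private theorem Pf_omswp : ∀ p q : K, om (p.2, p.1) (q.2, q.1) = om p q := by
  decide

private theorem Pf_zero : ∀ p : K, ((p.2, p.1) : K) = 0 ↔ p = 0 := by
  decide

private theorem Pf_L {V : Type} [Fintype V] (Q : V → V → ZMod 2) (v : V → K) (x : V) :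
    L Q (swp v) x = ((L Q v x).2, (L Q v x).1) := rfl

private theorem Pf_gd {V : Type} [Fintype V] (Q : V → V → ZMod 2) (v : V → K) (x : V)
    (h : Gd Q v x) : Gd Q (swp v) x := by
  refine ⟨?_, ?_⟩
  · intro h0
    exact h.1 ((Pf_zero (v x)).1 h0)
  · rw [Pf_L]
    exact (Pf_omswp (v x) (L Q v x)).trans h.2

private theorem Pf_cnt {V : Type} [Fintype V] [DecidableEq V] (v : V → K) :
    Nc v 0 + Nc v k0 + Nc v k1 + Nc v k2 = Fintype.card V := by
  have h : Fintype.card V = ∑ k : K, (univ.filter fun x => v x = k).card := by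
    rw [← Finset.card_univ]
    exact Finset.card_eq_sum_card_fiberwise fun x _ => Finset.mem_coe.2 (Finset.mem_univ _)
  rw [h]
  have h2 : (Finset.univ : Finset K) = {0, k0, k1, k2} := by
    decide
  rw [h2, Finset.sum_insert (by decide), Finset.sum_insert (by decide),
    Finset.sum_insert (by decide), Finset.sum_singleton]
  unfold Nc
  ring

private theorem Pf_four (m : ℕ) (h : ((m : ℕ) : ZMod 2) = 0) : (2 : ZMod 4) * (m : ZMod 4) = 0 := by
  rw [ZMod.natCast_eq_zero_iff] at h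
  obtain ⟨c, rfl⟩ := h
  have : (2 : ZMod 4) * ((2 * c : ℕ) : ZMod 4) = ((4 : ℕ) : ZMod 4) * (c : ZMod 4) := by
    push_cast
    ring
  rw [this, show ((4 : ℕ) : ZMod 4) = 0 from by decide, zero_mul]

private theorem Pf_four' (a : ZMod 4) : 2 * a + 2 * a = 0 := by
  revert a
  decide

theorem thm_Pf (hTr : St_Tr) (hHo : St_Ho) (hNh : St_Nh) (hCt : St_Ct) (hPr : St_Pr)
    (hNb : St_Nb) : St_Pf := by
  intro V _ _ Q hQ r hr k hn hodd
  by_contra hcon
  obtain ⟨hCt1, hCt2⟩ := hCt V Q hQ r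
  obtain ⟨hNb1, hNb2⟩ := hNb V r hr k hn
  have hSy : SyG Q := ⟨hQ.diag, hQ.symm⟩
  -- the sum over the good colourings is zero
  have hS : ∑ v ∈ univ.filter (fun v : V → K => ∀ x, Gd Q v x), (gg r v : ZMod 4) = 0 := by
    refine hPr V r hr 4 _ ?_ ?_
    · intro v hv
      rw [Finset.mem_filter] at hv ⊢
      exact ⟨Finset.mem_univ _, fun x => Pf_gd Q v x (hv.2 x)⟩
    · intro v hv
      have hg := (Finset.mem_filter.1 hv).2
      have h0 : Nc v 0 = 0 := by
        unfold Nc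
        rw [Finset.card_eq_zero, Finset.filter_eq_empty_iff]
        intro x _
        exact (hg x).1
      have hc := Pf_cnt v
      rw [h0, hn] at hc
      have hne : ¬ (Odd (Nc v k0) ∧ Odd (Nc v k1) ∧ Odd (Nc v k2)) := fun h => hcon ⟨v, hg, h⟩
      generalize Nc v k0 = A at hc hne ⊢
      generalize Nc v k1 = B at hc hne ⊢
      generalize Nc v k2 = C at hc hne ⊢
      rcases Nat.even_or_odd A with hA | hA <;> rcases Nat.even_or_odd B with hB | hB <;>
        rcases Nat.even_or_odd C with hC | hC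
      · obtain ⟨x, rfl⟩ := hA
        obtain ⟨y, rfl⟩ := hB
        exact ⟨x * y * C, by ring⟩
      · obtain ⟨x, rfl⟩ := hA
        obtain ⟨y, rfl⟩ := hB
        exact ⟨x * y * C, by ring⟩
      · obtain ⟨x, rfl⟩ := hA
        obtain ⟨y, rfl⟩ := hC
        exact ⟨x * y * B, by ring⟩
      · obtain ⟨x, rfl⟩ := hA
        obtain ⟨y, rfl⟩ := hB
        obtain ⟨z, rfl⟩ := hC
        omega
      · obtain ⟨x, rfl⟩ := hB
        obtain ⟨y, rfl⟩ := hC
        exact ⟨x * y * A, by ring⟩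
      · obtain ⟨x, rfl⟩ := hA
        obtain ⟨y, rfl⟩ := hB
        obtain ⟨z, rfl⟩ := hC
        omega
      · obtain ⟨x, rfl⟩ := hA
        obtain ⟨y, rfl⟩ := hB
        obtain ⟨z, rfl⟩ := hC
        omega
      · exact absurd ⟨hA, hB, hC⟩ hne
  -- the corrections
  have hX : ∀ x : V, ((∑ t ∈ (TT r).filter (fun t => x ∉ Ts t), NX Q (Ts t) (Td t) x : ℕ) :
      ZMod 2) = 0 := by
    intro x
    rw [← hCt2 x, Nat.cast_sum]
    refine hPr V r hr 2 _ ?_ ?_
    · intro v hv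
      rw [Finset.mem_filter] at hv ⊢
      refine ⟨Finset.mem_univ _, (Pf_zero (v x)).2 hv.2.1, ?_, fun z hz => Pf_gd Q v z (hv.2.2.2 z hz)⟩
      rw [Pf_L]
      exact (Pf_zero (L Q v x)).2 hv.2.2.1
    · intro v hv
      rw [Finset.mem_filter] at hv
      have h0 : Nc v 0 = 1 := by
        unfold Nc
        rw [Finset.card_eq_one]
        refine ⟨x, ?_⟩
        ext z
        rw [Finset.mem_filter, Finset.mem_singleton]
        constructor
        · rintro ⟨-, hz⟩
          by_contra hzx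
          exact (hv.2.2.2 z hzx).1 hz
        · rintro rfl
          exact ⟨Finset.mem_univ _, hv.2.1⟩
      have hc := Pf_cnt v
      rw [h0, hn] at hc
      generalize Nc v k0 = A at hc ⊢
      generalize Nc v k1 = B at hc ⊢
      generalize Nc v k2 = C at hc ⊢
      rcases Nat.even_or_odd A with hA | hA
      · exact Dvd.dvd.mul_right (Dvd.dvd.mul_right hA.two_dvd B) C
      · rcases Nat.even_or_odd B with hB | hB
        · exact Dvd.dvd.mul_right (Dvd.dvd.mul_left hB.two_dvd A) C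
        · rcases Nat.even_or_odd C with hC | hC
          · exact Dvd.dvd.mul_left hC.two_dvd (A * B)
          · obtain ⟨x1, rfl⟩ := hA
            obtain ⟨y1, rfl⟩ := hB
            obtain ⟨z1, rfl⟩ := hC
            omega
  have hX2 : (2 : ZMod 4) * ((∑ t ∈ TT r, ∑ x ∈ (Ts t)ᶜ, NX Q (Ts t) (Td t) x : ℕ) : ZMod 4) = 0 := by
    apply Pf_four
    have h1 : ∑ t ∈ TT r, ∑ x ∈ (Ts t)ᶜ, NX Q (Ts t) (Td t) x =
        ∑ x : V, ∑ t ∈ (TT r).filter (fun t => x ∉ Ts t), NX Q (Ts t) (Td t) x := by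
      have h2 : ∀ t, ∑ x ∈ (Ts t)ᶜ, NX Q (Ts t) (Td t) x =
          ∑ x : V, if x ∉ Ts t then NX Q (Ts t) (Td t) x else 0 := by
        intro t
        rw [← Finset.sum_filter]
        refine Finset.sum_congr ?_ fun _ _ => rfl
        ext x
        rw [Finset.mem_compl, Finset.mem_filter]
        exact ⟨fun h => ⟨Finset.mem_univ _, h⟩, fun h => h.2⟩
      rw [Finset.sum_congr rfl fun t _ => h2 t, Finset.sum_comm]
      refine Finset.sum_congr rfl fun x _ => ?_
      rw [Finset.sum_filter]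
    rw [h1, Nat.cast_sum]
    exact Finset.sum_eq_zero fun x _ => hX x
  -- every triple
  have hT : ∀ t ∈ TT r, (NN Q (Ts t) (Td t) : ZMod 4) =
      1 + 2 * (ed Q r (Ts t) : ZMod 4) + 2 * ∑ x ∈ (Ts t)ᶜ, (NX Q (Ts t) (Td t) x : ZMod 4) := by
    intro t ht
    have h1 := hTr V Q (Ts t) (Td t)
    have h2 := hNh V Q hSy r hr (Ts t)
    rw [TT, Finset.mem_filter] at ht
    obtain ⟨-, ht1, ht2, ht3⟩ := ht
    have hne : t.1 ≠ t.2.1 := by
      intro h
      rw [h] at ht1
      exact lt_irrefl _ ht1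
    have hcard : (Ts t)ᶜ.card = 2 * (2 * k - 1) ∧ 1 ≤ k := by
      have h3 : (Ts t).card = 3 := by
        unfold Ts
        rw [Finset.card_eq_three]
        exact ⟨t.1, t.2.1, t.2.2, hne, ht2.symm, ht3.symm, rfl⟩
      have h4 : (Ts t).card ≤ Fintype.card V := Finset.card_le_univ _
      rw [Finset.card_compl, h3, hn]
      rw [h3, hn] at h4
      omega
    have h3 : (2 : ZMod 4) * ∑ x ∈ (Ts t)ᶜ, (NX Q (Ts t) (fun _ => 0) x : ZMod 4) = 0 := by
      rw [← Nat.cast_sum]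
      apply Pf_four
      rw [Nat.cast_sum]
      have h4 : ∀ x ∈ (Ts t)ᶜ, ((NX Q (Ts t) (fun _ => 0) x : ℕ) : ZMod 2) =
          1 + ∑ y ∈ (Ts t)ᶜ, Q x y := by
        intro x hx
        exact (hHo V Q (Ts t)).2 x (Finset.mem_compl.1 hx) (hQ.diag x)
      rw [Finset.sum_congr rfl h4, Finset.sum_add_distrib, Pf_sym _ Q hQ.symm hQ.diag, add_zero,
        Finset.sum_const, hcard.1, nsmul_eq_mul, mul_one, Nat.cast_mul]
      rw [show ((2 : ℕ) : ZMod 2) = 0 from by decide, zero_mul]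
    have h5 : (3 : ZMod 4) ^ (Ts t)ᶜ.card = 1 := by
      rw [hcard.1, pow_mul, show (3 : ZMod 4) ^ 2 = 1 from by decide, one_pow]
    rw [h3, add_zero, h2, h5] at h1
    have h6 := Pf_four' (∑ x ∈ (Ts t)ᶜ, (NX Q (Ts t) (Td t) x : ZMod 4))
    linear_combination h1 - h6
  -- the end
  have hE : ∑ v ∈ univ.filter (fun v : V → K => ∀ x, Gd Q v x), (gg r v : ZMod 4) =
      2 * (k : ZMod 4) + 2 * (ed Q r ∅ : ZMod 4) := by
    rw [← Nat.cast_sum, hCt1, Nat.cast_sum, Finset.sum_congr rfl hT, Finset.sum_add_distrib,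
      Finset.sum_add_distrib, ← Finset.mul_sum, ← Finset.mul_sum, Finset.sum_const, nsmul_eq_mul,
      mul_one, hNb1]
    have h1 : (2 : ZMod 4) * ∑ t ∈ TT r, ∑ x ∈ (Ts t)ᶜ, (NX Q (Ts t) (Td t) x : ZMod 4) = 0 := by
      rw [← hX2]
      push_cast
      rfl
    have h2 : (2 : ZMod 4) * ∑ t ∈ TT r, (ed Q r (Ts t) : ZMod 4) = 2 * (ed Q r ∅ : ZMod 4) := by
      have h3 := hNb2 Q
      have h4 : (((∑ t ∈ TT r, ed Q r (Ts t)) + ed Q r ∅ : ℕ) : ZMod 2) = 0 := by
        rw [Nat.cast_add, h3]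
        generalize ((ed Q r ∅ : ℕ) : ZMod 2) = q
        revert q
        decide
      have h5 := Pf_four _ h4
      rw [Nat.cast_add, mul_add, Nat.cast_sum] at h5
      have h6 := Pf_four' ((ed Q r ∅ : ℕ) : ZMod 4)
      linear_combination h5 - h6
    rw [h1, h2, add_zero]
  rw [hE] at hS
  have h7 : ((2 * (k + ed Q r ∅) : ℕ) : ZMod 4) = 0 := by
    push_cast
    rw [mul_add]
    exact hS
  rw [ZMod.natCast_eq_zero_iff] at h7
  obtain ⟨m, hm⟩ := hodd
  omega

end Pool.Agent.ECM
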