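import Pool.Agent.ECM.St

/-!
# ECM: the module Pr

The sum of `gg` over a set which is closed under the exchange of the coordinates.
-/

set_option autoImplicit false

namespace Pool.Agent.ECM

private theorem Pr_swp_swp {V : Type} (v : V → K) : swp (swp v) = v := by
  funext x
  rfl

private theorem Pr_e0 {V : Type} (v : V → K) (x : V) : swp v x = k0 ↔ v x = k1 := by
  unfold swp k0 k1
  constructor
  · intro h
    have h1 := congrArg Prod.fst h
    have h2 := congrArg Prod.snd h
    exact Prod.ext h2 h1
  · intro h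
    rw [h]

private theorem Pr_e1 {V : Type} (v : V → K) (x : V) : swp v x = k1 ↔ v x = k0 := by
  unfold swp k0 k1
  constructor
  · intro h
    have h1 := congrArg Prod.fst h
    have h2 := congrArg Prod.snd h
    exact Prod.ext h2 h1
  · intro h
    rw [h]

private theorem Pr_e2 {V : Type} (v : V → K) (x : V) : swp v x = k2 ↔ v x = k2 := by
  unfold swp k2
  constructor
  · intro h
    have h1 := congrArg Prod.fst h
    have h2 := congrArg Prod.snd h
    exact Prod.ext h2 h1
  · intro h
    rw [h]

private theorem Pr_01 : k0 ≠ k1 := by decide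
private theorem Pr_02 : k0 ≠ k2 := by decide
private theorem Pr_12 : k1 ≠ k2 := by decide

private theorem Pr_fix {V : Type} [Fintype V] [DecidableEq V] (r : V → ℕ) (v : V → K)
    (h : swp v = v) : gg r v = 0 := by
  unfold gg
  rw [Finset.card_eq_zero, Finset.filter_eq_empty_iff]
  rintro t _ ⟨h0, _, _⟩
  have h1 : swp v t.1 = k0 := by rw [h]; exact h0
  rw [Pr_e0] at h1
  exact Pr_01 (h0.symm.trans h1)

private theorem Pr_gg {V : Type} [Fintype V] [DecidableEq V] (r : V → ℕ)
    (hr : Function.Injective r) (v : V → K) :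
    gg r v + gg r (swp v) = Nc v k0 * Nc v k1 * Nc v k2 := by
  classical
  let P : Finset (V × V × V) := (Finset.univ.filter fun x => v x = k0) ×ˢ
    ((Finset.univ.filter fun x => v x = k1) ×ˢ (Finset.univ.filter fun x => v x = k2))
  have hP : P.card = Nc v k0 * Nc v k1 * Nc v k2 := by
    simp only [P, Finset.card_product, Nc]
    ring
  have hmem : ∀ t : V × V × V, t ∈ P ↔ v t.1 = k0 ∧ v t.2.1 = k1 ∧ v t.2.2 = k2 := by
    intro t
    simp [P]
  have h1 : gg r v = (P.filter fun t => r t.1 < r t.2.1).card := by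
    unfold gg
    congr 1
    ext t
    simp only [Finset.mem_filter, hmem, TT, Finset.mem_univ, true_and]
    constructor
    · rintro ⟨⟨a, _, _⟩, b⟩
      exact ⟨b, a⟩
    · rintro ⟨⟨a, b, c⟩, d⟩
      refine ⟨⟨d, ?_, ?_⟩, a, b, c⟩
      · intro e
        rw [e, a] at c
        exact Pr_02 c
      · intro e
        rw [e, b] at c
        exact Pr_12 c
  have h2 : gg r (swp v) = (P.filter fun t => ¬ r t.1 < r t.2.1).card := by
    unfold gg
    refine Finset.card_nbij' (fun t => (t.2.1, t.1, t.2.2)) (fun t => (t.2.1, t.1, t.2.2))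
      ?_ ?_ ?_ ?_
    · intro t ht
      simp only [Finset.mem_coe, Finset.mem_filter, TT, Finset.mem_univ, true_and, Pr_e0, Pr_e1,
        Pr_e2] at ht
      simp only [Finset.mem_coe, Finset.mem_filter, hmem]
      obtain ⟨⟨a, _, _⟩, b, c, d⟩ := ht
      exact ⟨⟨c, b, d⟩, not_lt.mpr a.le⟩
    · intro t ht
      simp only [Finset.mem_coe, Finset.mem_filter, hmem] at ht
      simp only [Finset.mem_coe, Finset.mem_filter, TT, Finset.mem_univ, true_and, Pr_e0, Pr_e1,
        Pr_e2]
      obtain ⟨⟨a, b, c⟩, d⟩ := ht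
      refine ⟨⟨?_, ?_, ?_⟩, b, a, c⟩
      · refine lt_of_le_of_ne (not_lt.mp d) ?_
        intro e
        have e1 := hr e
        rw [e1, a] at b
        exact Pr_01 b
      · intro e
        rw [e, b] at c
        exact Pr_12 c
      · intro e
        rw [e, a] at c
        exact Pr_02 c
    · intro t _
      rfl
    · intro t _
      rfl
  rw [h1, h2, ← hP]
  exact Finset.card_filter_add_card_filter_not (s := P) (fun t : V × V × V => r t.1 < r t.2.1)

theorem thm_Pr : St_Pr := by
  intro V _ _ r hr m S hS hd
  refine Finset.sum_involution (fun v _ => swp v) ?_ ?_ ?_ ?_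
  · intro v hv
    have h := Pr_gg r hr v
    have h1 : ((gg r v + gg r (swp v) : ℕ) : ZMod m) = 0 := by
      rw [h]
      exact (ZMod.natCast_eq_zero_iff _ _).mpr (hd v hv)
    push_cast at h1
    exact h1
  · intro v _ hne heq
    apply hne
    rw [Pr_fix r v heq]
    simp
  · intro v hv
    exact hS v hv
  · intro v _
    exact Pr_swp_swp v

end Pool.Agent.ECM
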