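import Pool.Agent.ECM.St

/-!
# ECM Sg: the sign of a permutation is given by the number of the inversions
-/

set_option autoImplicit false

namespace Pool.Agent.ECM

/-- the sign as a product over the pairs in order -/
private theorem Sg_prod {n : ℕ} (ρ : Equiv.Perm (Fin n)) :
    Equiv.Perm.sign ρ = (-1) ^ (Finset.univ.filter fun p : Fin n × Fin n =>
      p.1 < p.2 ∧ ρ p.2 < ρ p.1).card := by
  classical
  rw [Equiv.Perm.sign_eq_prod_prod_Ioi]
  have h1 : ∀ i : Fin n, ∏ j ∈ Finset.Ioi i, (if ρ i < ρ j then (1 : ℤˣ) else -1) =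
      ∏ j : Fin n, (if i < j ∧ ρ j < ρ i then (-1 : ℤˣ) else 1) := by
    intro i
    rw [← Finset.prod_subset (Finset.subset_univ (Finset.Ioi i))]
    · refine Finset.prod_congr rfl ?_
      intro j hj
      rw [Finset.mem_Ioi] at hj
      have hne : ρ i ≠ ρ j := fun h => hj.ne (ρ.injective h)
      by_cases h : ρ i < ρ j
      · rw [if_pos h, if_neg (fun h' => absurd h'.2 (not_lt.mpr h.le))]
      · rw [if_neg h, if_pos ⟨hj, lt_of_le_of_ne (not_lt.mp h) (Ne.symm hne)⟩]
    · intro j _ hj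
      rw [Finset.mem_Ioi] at hj
      rw [if_neg (fun h' => hj h'.1)]
  rw [Finset.prod_congr rfl (fun i _ => h1 i), ← Finset.prod_product']
  rw [Finset.prod_ite]
  simp only [Finset.prod_const_one, mul_one, Finset.prod_const]
  rfl

/-- [Sg] -/
theorem thm_Sg : St_Sg := by
  intro V _ _ a b σ ha ha' hb hb' hσ
  classical
  set n := Fintype.card V with hn
  let ea : V ≃ Fin n := Equiv.ofBijective (fun x => (⟨a x, ha' x⟩ : Fin n)) (by
    rw [Fintype.bijective_iff_injective_and_card]
    refine ⟨fun x y h => ha (by simpa using congrArg Fin.val h), by simp [hn]⟩)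
  let eb : V ≃ Fin n := Equiv.ofBijective (fun x => (⟨b x, hb' x⟩ : Fin n)) (by
    rw [Fintype.bijective_iff_injective_and_card]
    refine ⟨fun x y h => hb (by simpa using congrArg Fin.val h), by simp [hn]⟩)
  have hea : ∀ x, (ea x : ℕ) = a x := fun x => rfl
  have heb : ∀ x, (eb x : ℕ) = b x := fun x => rfl
  have hσ' : ∀ x, eb (σ x) = ea x := fun x => Fin.ext (by rw [hea, heb, hσ x])
  let ρ : Equiv.Perm (Fin n) := ea.symm.trans eb
  have hρ : ∀ x, ρ (ea x) = eb x := fun x => by
    simp [ρ]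
  have h1 : Equiv.Perm.sign σ = Equiv.Perm.sign ρ := by
    have h2 : σ = (eb.trans ρ⁻¹).trans eb.symm := by
      refine Equiv.ext fun x => ?_
      rw [Equiv.trans_apply, Equiv.trans_apply, Equiv.eq_symm_apply, hσ' x,
        Equiv.Perm.eq_inv_iff_eq, hρ x]
    rw [h2, Equiv.Perm.sign_trans_trans_symm, Equiv.Perm.sign_inv]
  rw [h1, Sg_prod ρ]
  have h3 : (Finset.univ.filter fun p : Fin n × Fin n => p.1 < p.2 ∧ ρ p.2 < ρ p.1).card =
      iv a b := by
    unfold iv
    symm
    refine Finset.card_bij (fun p _ => (ea p.1, ea p.2)) ?_ ?_ ?_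
    · rintro ⟨x, y⟩ hp
      rw [Finset.mem_filter] at hp
      rw [Finset.mem_filter]
      refine ⟨Finset.mem_univ _, ?_, ?_⟩
      · exact Fin.lt_def.mpr hp.2.1
      · dsimp only
        rw [hρ, hρ]
        exact Fin.lt_def.mpr hp.2.2
    · rintro ⟨x, y⟩ _ ⟨x', y'⟩ _ h
      have h' := Prod.mk.inj h
      exact Prod.ext (ea.injective h'.1) (ea.injective h'.2)
    · rintro ⟨i, j⟩ hp
      rw [Finset.mem_filter] at hp
      refine ⟨(ea.symm i, ea.symm j), ?_, by simp⟩
      rw [Finset.mem_filter]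
      have e1 : ea (ea.symm i) = i := ea.apply_symm_apply i
      have e2 : ea (ea.symm j) = j := ea.apply_symm_apply j
      refine ⟨Finset.mem_univ _, ?_, ?_⟩
      · have := Fin.lt_def.mp hp.2.1
        dsimp only
        rw [← hea, ← hea, e1, e2]
        exact this
      · have h5 := hp.2.2
        dsimp only at h5 ⊢
        rw [← e1, ← e2, hρ, hρ] at h5
        exact Fin.lt_def.mp h5
  rw [h3]

end Pool.Agent.ECM
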