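import Pool.Agent.ECM.Defs
import Pool.Agent.CEC.Defs

/-!
# ECM: the statements (MP_854819_co, captain helper64)

Every `def St_X : Prop` is a module `Pool/Agent/ECM/X.lean` with `theorem thm_X : St_X` or
`theorem thm_X (h : St_Y) .. : St_X` (cite the other statements as hypotheses, do not import the other
modules). All sums over `v : V → K` are finite; `K = ZMod 2 × ZMod 2`; facts about elements of `K` are
proved by `decide`.
-/

set_option autoImplicit false

namespace Pool.Agent.ECM

open SimpleGraph Pool.Agent.ECH Pool.Agent.CEC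

/-- [Tk] the number of the solutions of a square linear system over `K`, modulo four, does not depend
on the right side.
Proof. `F v := fun x => L M v x` is an additive endomorphism of the finite group `V → K`. If it is
injective it is bijective (`Finite.injective_iff_bijective`), and both numbers are `1`. Otherwise there is `v ≠ 0` with
`F v = 0`, so one of the two coordinates `z : V → ZMod 2`, `z x = (v x).1` or `z x = (v x).2`, is not zero and
`∑ y, M x y * z y = 0` for all `x`. The map `k ↦ (fun x => (z x * k.1, z x * k.2))` is an injective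
additive map from `K` to the kernel of `F`, so `4 = card K` divides the order of the kernel
(`AddSubgroup.card_dvd_of_injective`), and the number of the solutions of `F v = w` is `0` or this order
(`AddMonoidHom.card_fiber_eq_of_mem_range`, or translate by one solution). So both numbers are `0` in
`ZMod 4`. -/
def St_Tk : Prop := ∀ (V : Type) [Fintype V] [DecidableEq V] (M : V → V → ZMod 2) (w : V → K),
  ((Finset.univ.filter fun v : V → K => ∀ x, L M v x = w x).card : ZMod 4) =
    ((Finset.univ.filter fun v : V → K => ∀ x, L M v x = 0).card : ZMod 4)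

/-- [Ex] the number of the good colourings and the linear systems.
Proof. `L (Mf Q D f) v x` is `v x` for `x ∈ D` and `L Q v x + (f x * (v x).1, f x * (v x).2)` otherwise.
So the `v` on the right side are those with `v = d` on `D` and `L Q v x = (f x * (v x).1, f x * (v x).2)`
for `x ∉ D`. Exchange the sums over `f` and `v`: for fixed `v` (with `v = d` on `D`) the number of the
`f` is `∏ x ∈ Dᶜ, ζ (v x) (L Q v x)`, where `ζ p w` is the number of the `t : ZMod 2` with
`w = (t * p.1, t * p.2)` (`Fintype.piFinset`, `Fintype.card_piFinset`, or `Fintype.prod_sum`). By `decide`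
`ζ p w = g + 2 h` with `g = if p ≠ 0 ∧ om p w = 0 then 1 else 0`, `h = if p = 0 ∧ w = 0 then 1 else 0`.
In `ZMod 4`: `∏ x ∈ s, (g x + 2 * h x) = ∏ x ∈ s, g x + 2 * ∑ x ∈ s, h x * ∏ y ∈ s.erase x, g y` by
induction on `s` (`4 = 0`). The sum over `v` of the first term is `NN`, the sum over `v` of
`h x * ∏ y ∈ s.erase x, g y` is `NX Q D d x`. -/
def St_Ex : Prop := ∀ (V : Type) [Fintype V] [DecidableEq V] (Q : V → V → ZMod 2) (D : Finset V)
  (d : V → K), (NN Q D d : ZMod 4) + 2 * ∑ x ∈ Dᶜ, (NX Q D d x : ZMod 4) =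
    ∑ f ∈ Finset.univ.filter (fun f : V → ZMod 2 => ∀ x ∈ D, f x = 0),
      ((Finset.univ.filter fun v : V → K => ∀ x, L (Mf Q D f) v x = if x ∈ D then d x else 0).card :
        ZMod 4)

/-- [Ho] the colourings with `d = 0`, modulo two.
Proof. The exchange `swp` of the coordinates is an involution of the two sets (`L Q (swp v) x` is
`L Q v x` with exchanged coordinates, and `om` does not change), so the numbers are modulo two the numbers of the
`v` in the sets with `swp v = v` (sum the constant `1 : ZMod 2` with `Finset.sum_involution` over the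
`v` with `swp v ≠ v`). `swp v = v` iff all values are `0` or `k2`. For `NN` this is only `v = k2` outside
of `D`, `v = 0` on `D`; it is good: `L Q v x = (s, s)` and `om k2 (s, s) = s + s = 0`. For `NX` it is only
`v = k2` outside of `D` and `x`, and `0` on `D` and at `x`, where `L Q v x = (s, s)`,
`s = ∑ y ∈ Dᶜ, Q x y` (`Q x x = 0`), and it is in the set iff `s = 0`. -/
def St_Ho : Prop := ∀ (V : Type) [Fintype V] [DecidableEq V] (Q : V → V → ZMod 2) (D : Finset V),
  Odd (NN Q D (fun _ => 0)) ∧
  ∀ x, x ∉ D → Q x x = 0 → (NX Q D (fun _ => 0) x : ZMod 2) = 1 + ∑ y ∈ Dᶜ, Q x y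

/-- [Tr] from [Tk] and [Ex]: both sides are the same sum over `f`. -/
def St_Tr : Prop := ∀ (V : Type) [Fintype V] [DecidableEq V] (Q : V → V → ZMod 2) (D : Finset V)
  (d : V → K), (NN Q D d : ZMod 4) + 2 * ∑ x ∈ Dᶜ, (NX Q D d x : ZMod 4) =
    (NN Q D (fun _ => 0) : ZMod 4) + 2 * ∑ x ∈ Dᶜ, (NX Q D (fun _ => 0) x : ZMod 4)

/-- [Od] from [Tr] and [Ho]: `NN Q D d` is `NN Q D 0` modulo two. -/
def St_Od : Prop := ∀ (V : Type) [Fintype V] [DecidableEq V] (Q : V → V → ZMod 2) (D : Finset V)
  (d : V → K), Odd (NN Q D d)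

/-- [Tg] (uses [Od]) adding or removing one edge.
Proof. Let `S` be the set of the `v` with `v = 0` on `D`, `v x ≠ 0` outside of `D`,
`E x := om (v x) (L Q v x)`, and `E' x` the same for `tog Q a b`. `L (tog Q a b) v x = L Q v x` for
`x ≠ a, b`, `L (tog Q a b) v a = L Q v a + v b`, `L (tog Q a b) v b = L Q v b + v a`; so `E' x = E x` for
`x ≠ a, b` and `E' a = E a + om (v a) (v b)`, `E' b = E b + om (v b) (v a)`, where `om (v a) (v b)` is `0`
if `v a = v b`, else `1` (`v a`, `v b` nonzero). Let `R` be the set of the `v ∈ S` with `v a ≠ v b` and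
`E x = 0` for all `x ∉ D`, `x ≠ a`, `x ≠ b`. For `v ∈ S`:
`∑ x, E x = ∑ x, ∑ y, Q x y * om (v x) (v y) = 0` (symmetric with diagonal `0`; see `Rou_sym` in
`Pool/Agent/ECH/Rou.lean`), so for `v ∈ R`: `E a = E b` (`E x = 0` for `x ∈ D` as `v x = 0`). Let `R0`, `R1`
be the sets of the `v ∈ R` with `E a = E b = 0`, `= 1`. The good `v` with `v a = v b` are the same for
`Q` and for `tog Q a b`; those with `v a ≠ v b` are `R0` for `Q` and `R1` for `tog Q a b`. So the
difference is `card R1 - card R0 = card R - 2 * card R0`.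
`card R0` is even: `swp` is an involution of `R0` without fixed points (`v a ≠ v b`, and `swp v = v`
means that all values are `0` or `k2`). `card R = 6 r` with `r` odd: `R` is the disjoint union of the
sets `R(k, k') := {v ∈ R : v a = k, v b = k'}` over the six pairs of different nonzero `k`, `k'`. With
`g p := (p.2 * k.1 + p.1 * k'.1, p.2 * k.2 + p.1 * k'.2)` (so `g k0 = k`, `g k1 = k'`) we have
`om (g p) (g q) = om p q` (decide), `L Q (g ∘ v) x = g (L Q v x)`, `g` is bijective, so `v ↦ g ∘ v` is a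
bijection from `R(k0, k1)` to `R(k, k')`. `R(k0, k1)` is the set of
`NN Q (insert a (insert b D)) d` with `d a = k0`, `d b = k1`, `d = 0` elsewhere, which is odd by [Od].
Finally `6 r = 2` in `ZMod 4` for odd `r` and `2 * card R0 = 0`. -/
def St_Tg : Prop := ∀ (V : Type) [Fintype V] [DecidableEq V] (Q : V → V → ZMod 2), SyG Q →
  ∀ (D : Finset V) (a b : V), a ≠ b → a ∉ D → b ∉ D →
  (NN (tog Q a b) D (fun _ => 0) : ZMod 4) = (NN Q D (fun _ => 0) : ZMod 4) + 2

/-- [Nh] (uses [Tg]) the colourings with `d = 0`, modulo four.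
Proof. Induction on `ed Q r D` (for all `Q`). If it is `0` then `Q x y = 0` for all `x, y ∉ D` (`r`
injective, `Q` symmetric, diagonal `0`), so `L Q v x = 0` for `x ∉ D` if `v = 0` on `D`, and `NN` counts
the `v` with `v = 0` on `D` and `v x ≠ 0` outside of `D`: `3 ^ Dᶜ.card` (`Fintype.piFinset`,
`Fintype.card_piFinset`). Otherwise take a pair `(a, b)` counted by `ed`; `tog Q a b` is again `SyG` and
`ed (tog Q a b) r D + 1 = ed Q r D` (the pair `(a, b)` is removed, nothing else changes); by [Tg]
`NN Q = NN (tog Q a b) - 2 = NN (tog Q a b) + 2` in `ZMod 4`. -/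
def St_Nh : Prop := ∀ (V : Type) [Fintype V] [DecidableEq V] (Q : V → V → ZMod 2), SyG Q →
  ∀ r : V → ℕ, Function.Injective r → ∀ D : Finset V,
  (NN Q D (fun _ => 0) : ZMod 4) = 3 ^ Dᶜ.card + 2 * (ed Q r D : ZMod 4)

/-- [Au] the conditions at the three vertices of `t` are automatic (`Q` has even degrees).
Proof. Let `k ≠ 0` and `E x := om (v x) (L Q v x) = ∑ y, Q x y * om (v x) (v y)`. Then
`∑ x, (if v x = k then E x else 0) = ∑ x, ∑ y, (if v x = k then Q x y * om k (v y) else 0)`, and
`om k (v y) = 1 + [v y = k] + [v y = 0]` in `ZMod 2` (decide, `k ≠ 0`). The terms with `1` give `0`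
(`∑ y, Q x y = 0`), the terms with `[v y = k]` give `0` (the sum of the symmetric function
`[v x = k] [v y = k] Q x y` with diagonal `0`, see `Rou_sym` in `Pool/Agent/ECH/Rou.lean`). So
(*) `∑ x, (if v x = k then E x else 0) = ∑ x, ∑ y, (if v x = k ∧ v y = 0 then Q x y else 0)`.
First part: there is no `y` with `v y = 0`, so the right side of (*) is `0`. For `k = k0` the only `x`
with `v x = k0` and possibly `E x ≠ 0` is `t.1` (`t.2.1`, `t.2.2` have other colours), so `E t.1 = 0`; in the
same way `E t.2.1 = 0`, `E t.2.2 = 0`.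
Second part: the only `y` with `v y = 0` is `x`, and the right side of (*) is
`B k := ∑ z, (if v z = k then Q x z else 0)` (symmetry). `L Q v x = 0` says `B k1 + B k2 = 0` and
`B k0 + B k2 = 0`; and `B k0 + B k1 + B k2 = ∑ z, Q x z = 0` (`Q x x = 0`); so all are `0`, and one concludes
as before (`x` is not in `t` as `v x = 0`). -/
def St_Au : Prop := ∀ (V : Type) [Fintype V] [DecidableEq V] (Q : V → V → ZMod 2), EvG Q →
  ∀ (v : V → K) (t : V × V × V), v t.1 = k0 → v t.2.1 = k1 → v t.2.2 = k2 →
  ((∀ z, v z ≠ 0) → (∀ z, z ∉ Ts t → om (v z) (L Q v z) = 0) → ∀ z, Gd Q v z) ∧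
  (∀ x, v x = 0 → L Q v x = 0 → (∀ z, z ≠ x → v z ≠ 0) →
    (∀ z, z ∉ Ts t → z ≠ x → om (v z) (L Q v z) = 0) → ∀ z, z ≠ x → Gd Q v z)

/-- [Ct] (uses [Au]) double counting.
Proof. First part: `gg r v = ∑ t ∈ TT r, (if v t.1 = k0 ∧ v t.2.1 = k1 ∧ v t.2.2 = k2 then 1 else 0)`;
exchange the sums. For `t ∈ TT r` (three different vertices) the number of the good `v` with the colours
`k0`, `k1`, `k2` on `t` is `NN Q (Ts t) (Td t)`: the two sets of `v` are equal by [Au] (if
`v = Td t` on `Ts t` and `v` is good outside of `Ts t` then `v` has no zero and is good everywhere).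
Second part: the same with the second part of [Au]; the `t` with `x ∈ Ts t` do not contribute
(`v x = 0`, and `k0`, `k1`, `k2` are not `0`). -/
def St_Ct : Prop := ∀ (V : Type) [Fintype V] [DecidableEq V] (Q : V → V → ZMod 2), EvG Q →
  ∀ r : V → ℕ,
  (∑ v ∈ Finset.univ.filter (fun v : V → K => ∀ x, Gd Q v x), gg r v =
    ∑ t ∈ TT r, NN Q (Ts t) (Td t)) ∧
  ∀ x, ∑ v ∈ Finset.univ.filter (fun v : V → K => v x = 0 ∧ L Q v x = 0 ∧ ∀ z, z ≠ x → Gd Q v z),
    gg r v = ∑ t ∈ (TT r).filter (fun t => x ∉ Ts t), NX Q (Ts t) (Td t) x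

/-- [Pr] the sum of `gg` over a set which is closed under the exchange of the coordinates.
Proof. `gg r v + gg r (swp v) = Nc v k0 * Nc v k1 * Nc v k2`: the right side is the number of the
`(p, q, s)` with colours `k0`, `k1`, `k2`; those with `r p < r q` are counted by `gg r v`; those with
`r q < r p` correspond to the triples `(q, p, s)`, which are counted by `gg r (swp v)` (`swp` exchanges
`k0` and `k1` and fixes `k2`); `r p = r q` is impossible (`p ≠ q`). Moreover `gg r v = 0` if `swp v = v` (all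
values are `0` or `k2`). `Finset.sum_involution` in `ZMod m`. -/
def St_Pr : Prop := ∀ (V : Type) [Fintype V] [DecidableEq V] (r : V → ℕ), Function.Injective r →
  ∀ (m : ℕ) (S : Finset (V → K)), (∀ v ∈ S, swp v ∈ S) →
  (∀ v ∈ S, m ∣ Nc v k0 * Nc v k1 * Nc v k2) → ∑ v ∈ S, (gg r v : ZMod m) = 0

/-- [Nb] two numbers.
Proof. For a finite set `W` of vertices with `w` elements let `T(W)` be the number of the `t ∈ TT r` with
`t.1, t.2.1, t.2.2 ∈ W`. The number `c` of the `(p, q)` with `p, q ∈ W`, `r p < r q` satisfies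
`2 c = w (w - 1)` (`W.offDiag` is the disjoint union of these pairs and the pairs with `r q < r p`), and
`T(W) = c (w - 2)`. First part: `W = univ`, `w = 4 k + 1`: `c = 2 k (4 k + 1)`, `T = 2 k (4 k + 1) (4 k - 1)`,
which is `2 k` modulo four. Second part: `ed Q r (Ts t)` counts the pairs `(x, y)` with `r x < r y`,
`Q x y = 1`, `x, y ∉ Ts t`; exchange the sums: every pair `(x, y)` counted by `ed Q r ∅` is counted
`T(W)` times, `W = univ` without `x, y`, `w = 4 k - 1` (`k ≥ 1` as there are two vertices),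
`c = (4 k - 1) (2 k - 1)`, `T = (4 k - 1) (2 k - 1) (4 k - 3)` is odd. -/
def St_Nb : Prop := ∀ (V : Type) [Fintype V] [DecidableEq V] (r : V → ℕ), Function.Injective r →
  ∀ k : ℕ, Fintype.card V = 4 * k + 1 →
  ((TT r).card : ZMod 4) = 2 * (k : ZMod 4) ∧
  ∀ Q : V → V → ZMod 2, ((∑ t ∈ TT r, ed Q r (Ts t) : ℕ) : ZMod 2) = (ed Q r ∅ : ZMod 2)

/-- [Pf] (uses [Tr], [Ho], [Nh], [Ct], [Pr], [Nb]) a partition into three odd classes.
Proof. Suppose there is none. For a good `v` we have `Nc v k0 + Nc v k1 + Nc v k2 = 4 k + 1`, not all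
three are odd, so two of them are even and `4` divides the product. By [Pr] (`m = 4`) and [Ct]
`0 = ∑ t ∈ TT r, NN Q (Ts t) (Td t)` in `ZMod 4`. By [Tr] `NN Q (Ts t) (Td t)` is
`NN Q (Ts t) 0 + 2 ∑ x ∉ Ts t, NX Q (Ts t) 0 x - 2 ∑ x ∉ Ts t, NX Q (Ts t) (Td t) x`. By [Nh] (`4 k - 2`
vertices outside, `3 ^ (4 k - 2) = 1` in `ZMod 4`) the first term is `1 + 2 ed Q r (Ts t)`. By [Ho] the
second one is `2 ((4 k - 2) + ∑ x, y ∉ Ts t, Q x y) = 0` (symmetric, diagonal `0`). The sum over `t` of the
third term is `2` times a number which is even by [Ct] (second part) and [Pr] with `m = 2`: for the `v`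
with the only zero `x` the sum `Nc v k0 + Nc v k1 + Nc v k2 = 4 k` is even, so the product is even. So
`0 = card (TT r) + 2 ∑ t, ed Q r (Ts t) = 2 k + 2 ed Q r ∅` by [Nb], a contradiction. -/
def St_Pf : Prop := ∀ (V : Type) [Fintype V] [DecidableEq V] (Q : V → V → ZMod 2), EvG Q →
  ∀ r : V → ℕ, Function.Injective r → ∀ k : ℕ, Fintype.card V = 4 * k + 1 →
  Odd (k + ed Q r ∅) →
  ∃ v : V → K, (∀ x, Gd Q v x) ∧ Odd (Nc v k0) ∧ Odd (Nc v k1) ∧ Odd (Nc v k2)

/-- [Eq] the number of the edges of the graph `Qf a b` modulo two.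
Proof. `ed (Qf a b) a ∅` is modulo two the sum over the pairs `(x, y)` with `a x < a y` of
`Qf a b x y = 1 + [b y < b x] + s x + s y`, `s x := a x + b x` in `ZMod 2`. The number of these pairs is
`n (n - 1) / 2`, `n = card V`, which is even; `[b y < b x]` gives `iv a b`; the sum of `s x + s y` over the
pairs is half of the sum over all ordered pairs of different vertices: `(n - 1) ∑ x, s x = 0` in
`ZMod 2` (work with `∑ over a x < a y of s x + ∑ over a x < a y of s y = ∑ x, s x * (number of y ≠ x)`). -/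
def St_Eq : Prop := ∀ (V : Type) [Fintype V] [DecidableEq V] (α β : Equiv.Perm V) (a b : V → ℕ),
  Cyc α a → Cyc β b → Fintype.card V % 4 = 1 →
  ((ed (Qf a b) a ∅ : ℕ) : ZMod 2) = (iv a b : ZMod 2)

/-- [Sg] the sign of a permutation is given by the number of the inversions.
Proof. `a`, `b` are bijections of `V` with `Fin n` (`n = card V`), call them `ea`, `eb`. The inversions of
`ρ := ea.symm.trans eb : Perm (Fin n)` (`ρ i = b (a⁻¹ i)`) are the pairs counted by `iv a b`, and
`sign ρ = (-1) ^ (number of the inversions)` (Mathlib: `Equiv.Perm.sign_eq_prod_prod_Iio` or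
`Equiv.Perm.sign_eq_prod_prod_Ioi` or the definition `signAux`). `σ = ea.trans eb.symm` (from
`b (σ x) = a x`), so `σ` is conjugate to `ρ⁻¹` by `eb` (`Equiv.Perm.sign_symm_trans_trans`,
`Equiv.Perm.sign_inv`). -/
def St_Sg : Prop := ∀ (V : Type) [Fintype V] [DecidableEq V] (a b : V → ℕ) (σ : Equiv.Perm V),
  Function.Injective a → (∀ x, a x < Fintype.card V) → Function.Injective b →
  (∀ x, b x < Fintype.card V) → (∀ x, b (σ x) = a x) → Equiv.Perm.sign σ = (-1) ^ iv a b

/-- [Hm] the cyclic order of a Hamiltonian cycle, with positions.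
Proof. As `thm_Ham` in `Pool/Agent/ECH/Ham.lean` (copy it), with the position `a (A.getVert i) = i`. -/
def St_Hm : Prop := ∀ (V : Type) [Fintype V] [DecidableEq V] (G : SimpleGraph V) (v : V)
  (A : G.Walk v v), A.IsHamiltonianCycle → ∃ (α : Equiv.Perm V) (a : V → ℕ), Cyc α a ∧
    (∀ i, i < Fintype.card V → a (A.getVert i) = i) ∧
    ∀ x y, s(x, y) ∈ A.edges ↔ (y = α x ∨ x = α y)

/-- [Fn] (uses [Pf], [Eq], [Sg], [Hm] and `St_Qe`, `St_Asm` of ECH) the theorem. -/
def St_Fn : Prop := ∀ (V : Type) [Fintype V] [DecidableEq V] (G : SimpleGraph V) (v w : V)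
  (A : G.Walk v v) (B : G.Walk w w), A.IsHamiltonianCycle → B.IsHamiltonianCycle →
  (∀ e ∈ A.edges, e ∉ B.edges) → (∀ e ∈ G.edgeSet, e ∈ A.edges ∨ e ∈ B.edges) →
  Fintype.card V % 4 = 1 → ∀ σ : Equiv.Perm V,
  (∀ i, i < Fintype.card V → B.getVert i = σ (A.getVert i)) →
  Equiv.Perm.sign σ ≠ (-1) ^ ((Fintype.card V - 1) / 4) → HasECD G

end Pool.Agent.ECM
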