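import Pool.Agent.ECM.St

/-!
# ECM Tg: adding or removing one edge
-/

set_option autoImplicit false

namespace Pool.Agent.ECM

open Pool.Agent.ECH

/-- linear maps of `K` -/
private def gl (c : (ZMod 2 × ZMod 2) × (ZMod 2 × ZMod 2)) (p : K) : K :=
  (c.1.1 * p.1 + c.1.2 * p.2, c.2.1 * p.1 + c.2.2 * p.2)

/-- the map with `k ↦ m`, `k' ↦ m'` -/
private def cc (k k' m m' : K) : (ZMod 2 × ZMod 2) × (ZMod 2 × ZMod 2) :=
  ((m'.1 * k.2 + m.1 * k'.2, m'.1 * k.1 + m.1 * k'.1),
    (m'.2 * k.2 + m.2 * k'.2, m'.2 * k.1 + m.2 * k'.1))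

private theorem Tg_lin' : ∀ k k' m m' : ZMod 2 × ZMod 2, (k ≠ 0 ∧ k' ≠ 0 ∧ k ≠ k' ∧ m ≠ 0 ∧
    m' ≠ 0 ∧ m ≠ m') → (gl (cc k k' m m') k = m ∧ gl (cc k k' m m') k' = m' ∧
      om (gl (cc k k' m m') (0, 1)) (gl (cc k k' m m') (1, 0)) = 1) := by
  decide +kernel

private theorem Tg_lin (k k' m m' : K) (h1 : k ≠ 0) (h2 : k' ≠ 0) (h3 : k ≠ k') (h4 : m ≠ 0)
    (h5 : m' ≠ 0) (h6 : m ≠ m') : ∃ c : (ZMod 2 × ZMod 2) × (ZMod 2 × ZMod 2), gl c k = m ∧
      gl c k' = m' ∧ om (gl c (0, 1)) (gl c (1, 0)) = 1 :=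
  ⟨_, Tg_lin' k k' m m' ⟨h1, h2, h3, h4, h5, h6⟩⟩

private theorem Tg_glom : ∀ c : (ZMod 2 × ZMod 2) × (ZMod 2 × ZMod 2),
    om (gl c (0, 1)) (gl c (1, 0)) = 1 → ∀ p q : ZMod 2 × ZMod 2,
      om (gl c p) (gl c q) = om p q := by
  decide +kernel

private theorem Tg_glinj : ∀ c : (ZMod 2 × ZMod 2) × (ZMod 2 × ZMod 2),
    om (gl c (0, 1)) (gl c (1, 0)) = 1 → ∀ p q : ZMod 2 × ZMod 2,
      gl c p = gl c q → p = q := by
  decide +kernel

private theorem Tg_gl0 (c : (ZMod 2 × ZMod 2) × (ZMod 2 × ZMod 2)) : gl c 0 = 0 := by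
  simp [gl]

private theorem Tg_om_add (p q r : K) : om p (q + r) = om p q + om p r := by
  simp only [om, Prod.fst_add, Prod.snd_add]
  ring

private theorem Tg_om_self (p : K) : om p p = 0 := by
  revert p
  decide

private theorem Tg_om_comm (p q : K) : om p q = om q p := by
  simp only [om]
  ring

private theorem Tg_om_zero (q : K) : om 0 q = 0 := by
  simp [om]

private theorem Tg_om_ne : ∀ p q : K, p ≠ 0 → q ≠ 0 → p ≠ q → om p q = 1 := by
  decide

variable {V : Type} [Fintype V]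

private theorem Tg_L_gl (Q : V → V → ZMod 2) (c : (ZMod 2 × ZMod 2) × (ZMod 2 × ZMod 2))
    (v : V → K) (x : V) : L Q (fun y => gl c (v y)) x = gl c (L Q v x) := by
  unfold L gl
  ext
  · simp only [Finset.mul_sum, ← Finset.sum_add_distrib]
    exact Finset.sum_congr rfl fun y _ => by ring
  · simp only [Finset.mul_sum, ← Finset.sum_add_distrib]
    exact Finset.sum_congr rfl fun y _ => by ring

private theorem Tg_L_swp (Q : V → V → ZMod 2) (v : V → K) (x : V) :
    L Q (swp v) x = ((L Q v x).2, (L Q v x).1) := rfl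

private theorem Tg_om_swp (p q : K) : om (p.2, p.1) (q.2, q.1) = om p q := by
  simp only [om]
  ring

private theorem Tg_char (x : ZMod 2) : x + x = 0 := by
  revert x
  decide

private theorem Tg_sumE {Q : V → V → ZMod 2} (hQ : SyG Q) (v : V → K) :
    ∑ x, om (v x) (L Q v x) = 0 := by
  have h : ∀ x, om (v x) (L Q v x) =
      (∑ y, Q x y * (v x).1 * (v y).2) + ∑ y, Q x y * (v x).2 * (v y).1 := by
    intro x
    simp only [om, L, Finset.mul_sum]
    congr 1
    · exact Finset.sum_congr rfl fun y _ => by ring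
    · exact Finset.sum_congr rfl fun y _ => by ring
  rw [Finset.sum_congr rfl fun x _ => h x, Finset.sum_add_distrib]
  have h2 : ∑ x, ∑ y, Q x y * (v x).2 * (v y).1 = ∑ x, ∑ y, Q x y * (v x).1 * (v y).2 := by
    rw [Finset.sum_comm]
    refine Finset.sum_congr rfl fun y _ => Finset.sum_congr rfl fun x _ => ?_
    rw [hQ.symm x y]
    ring
  rw [h2]
  exact Tg_char _

variable [DecidableEq V]

private theorem Tg_L_tog (Q : V → V → ZMod 2) {a b : V} (hab : a ≠ b) (v : V → K) (x : V) :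
    L (tog Q a b) v x = L Q v x + if x = a then v b else if x = b then v a else 0 := by
  have key : ∀ f : V → ZMod 2, ∑ y, tog Q a b x y * f y =
      (∑ y, Q x y * f y) + if x = a then f b else if x = b then f a else 0 := by
    intro f
    unfold tog
    simp only [add_mul, Finset.sum_add_distrib]
    congr 1
    by_cases hxa : x = a
    · subst hxa
      rw [if_pos rfl, Finset.sum_eq_single b]
      · rw [if_pos (Or.inl ⟨rfl, rfl⟩), one_mul]
      · intro y _ hy
        rw [if_neg, zero_mul]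
        rintro (⟨-, h⟩ | ⟨h, -⟩)
        · exact hy h
        · exact hab h
      · intro h
        exact absurd (Finset.mem_univ _) h
    · rw [if_neg hxa]
      by_cases hxb : x = b
      · subst hxb
        rw [if_pos rfl, Finset.sum_eq_single a]
        · rw [if_pos (Or.inr ⟨rfl, rfl⟩), one_mul]
        · intro y _ hy
          rw [if_neg, zero_mul]
          rintro (⟨h, -⟩ | ⟨-, h⟩)
          · exact hxa h
          · exact hy h
        · intro h
          exact absurd (Finset.mem_univ _) h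
      · rw [if_neg hxb]
        refine Finset.sum_eq_zero fun y _ => ?_
        rw [if_neg, zero_mul]
        rintro (⟨h, -⟩ | ⟨h, -⟩)
        · exact hxa h
        · exact hxb h
  unfold L
  rw [key fun y => (v y).1, key fun y => (v y).2]
  ext
  · simp only [Prod.fst_add]
    split_ifs <;> rfl
  · simp only [Prod.snd_add]
    split_ifs <;> rfl

/-- the sets of the proof -/
private def SG (Q : V → V → ZMod 2) (D : Finset V) : Finset (V → K) :=
  Finset.univ.filter fun v : V → K => (∀ z ∈ D, v z = 0) ∧ ∀ z, z ∉ D → Gd Q v z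

/-- the sets of the proof -/
private def SR (Q : V → V → ZMod 2) (D : Finset V) (a b : V) : Finset (V → K) :=
  Finset.univ.filter fun v : V → K => (∀ z ∈ D, v z = 0) ∧ (∀ z, z ∉ D → v z ≠ 0) ∧ v a ≠ v b ∧
    ∀ z, z ∉ D → z ≠ a → z ≠ b → om (v z) (L Q v z) = 0

private theorem mem_SG {Q : V → V → ZMod 2} {D : Finset V} {v : V → K} :
    v ∈ SG Q D ↔ (∀ z ∈ D, v z = 0) ∧ ∀ z, z ∉ D → Gd Q v z := by
  simp [SG]

private theorem mem_SR {Q : V → V → ZMod 2} {D : Finset V} {a b : V} {v : V → K} :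
    v ∈ SR Q D a b ↔ (∀ z ∈ D, v z = 0) ∧ (∀ z, z ∉ D → v z ≠ 0) ∧ v a ≠ v b ∧
      ∀ z, z ∉ D → z ≠ a → z ≠ b → om (v z) (L Q v z) = 0 := by
  simp [SR]

private theorem Tg_same (Q : V → V → ZMod 2) (D : Finset V) {a b : V} (hab : a ≠ b) :
    (SG (tog Q a b) D).filter (fun v => v a = v b) = (SG Q D).filter (fun v => v a = v b) := by
  ext v
  simp only [Finset.mem_filter, mem_SG]
  constructor
  · rintro ⟨⟨h1, h2⟩, h3⟩
    refine ⟨⟨h1, fun z hz => ?_⟩, h3⟩
    obtain ⟨h4, h5⟩ := h2 z hz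
    refine ⟨h4, ?_⟩
    rw [Tg_L_tog Q hab, Tg_om_add] at h5
    by_cases hza : z = a
    · subst hza
      rw [if_pos rfl, h3, Tg_om_self, add_zero, ← h3] at h5
      exact h5
    · rw [if_neg hza] at h5
      by_cases hzb : z = b
      · subst hzb
        rw [if_pos rfl, h3, Tg_om_self, add_zero] at h5
        exact h5
      · rw [if_neg hzb, Tg_om_comm (v z) 0, Tg_om_zero, add_zero] at h5
        exact h5
  · rintro ⟨⟨h1, h2⟩, h3⟩
    refine ⟨⟨h1, fun z hz => ?_⟩, h3⟩
    obtain ⟨h4, h5⟩ := h2 z hz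
    refine ⟨h4, ?_⟩
    rw [Tg_L_tog Q hab, Tg_om_add]
    by_cases hza : z = a
    · subst hza
      rw [if_pos rfl, h5, h3, Tg_om_self, add_zero]
    · rw [if_neg hza]
      by_cases hzb : z = b
      · subst hzb
        rw [if_pos rfl, h5, h3, Tg_om_self, add_zero]
      · rw [if_neg hzb, h5, Tg_om_comm (v z) 0, Tg_om_zero, add_zero]

private theorem Tg_EE {Q : V → V → ZMod 2} (hQ : SyG Q) {D : Finset V} {a b : V} (hab : a ≠ b)
    {v : V → K} (h0 : ∀ z ∈ D, v z = 0)
    (h1 : ∀ z, z ∉ D → z ≠ a → z ≠ b → om (v z) (L Q v z) = 0) :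
    om (v a) (L Q v a) = om (v b) (L Q v b) := by
  have h := Tg_sumE hQ v
  have h2 : ∑ x, om (v x) (L Q v x) = om (v a) (L Q v a) + om (v b) (L Q v b) := by
    have h3 := Finset.sum_pair (f := fun x => om (v x) (L Q v x)) hab
    refine Eq.trans ?_ h3
    symm
    refine Finset.sum_subset (Finset.subset_univ _) fun z _ hz => ?_
    simp only [Finset.mem_insert, Finset.mem_singleton, not_or] at hz
    by_cases hzD : z ∈ D
    · rw [h0 z hzD, Tg_om_zero]
    · exact h1 z hzD hz.1 hz.2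
  rw [h2] at h
  revert h
  generalize om (v a) (L Q v a) = s
  generalize om (v b) (L Q v b) = t
  revert s t
  decide

private theorem Tg_R0 {Q : V → V → ZMod 2} {D : Finset V} {a b : V} (ha : a ∉ D)
    (hQ : SyG Q) (hab : a ≠ b) :
    (SG Q D).filter (fun v => ¬ v a = v b) =
      (SR Q D a b).filter (fun v => om (v a) (L Q v a) = 0) := by
  ext v
  simp only [Finset.mem_filter, mem_SG, mem_SR]
  constructor
  · rintro ⟨⟨h1, h2⟩, h3⟩
    exact ⟨⟨h1, fun z hz => (h2 z hz).1, h3, fun z hz _ _ => (h2 z hz).2⟩, (h2 a ha).2⟩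
  · rintro ⟨⟨h1, h2, h3, h4⟩, h5⟩
    refine ⟨⟨h1, fun z hz => ⟨h2 z hz, ?_⟩⟩, h3⟩
    by_cases hza : z = a
    · rw [hza]
      exact h5
    · by_cases hzb : z = b
      · rw [hzb, ← Tg_EE hQ hab h1 h4]
        exact h5
      · exact h4 z hz hza hzb

private theorem Tg_R1 {Q : V → V → ZMod 2} {D : Finset V} {a b : V} (ha : a ∉ D) (hb : b ∉ D)
    (hQ : SyG Q) (hab : a ≠ b) :
    (SG (tog Q a b) D).filter (fun v => ¬ v a = v b) =
      (SR Q D a b).filter (fun v => ¬ om (v a) (L Q v a) = 0) := by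
  ext v
  simp only [Finset.mem_filter, mem_SG, mem_SR]
  have hne : ∀ s : ZMod 2, s + 1 = 0 ↔ ¬ s = 0 := by decide
  constructor
  · rintro ⟨⟨h1, h2⟩, h3⟩
    refine ⟨⟨h1, fun z hz => (h2 z hz).1, h3, fun z hz hza hzb => ?_⟩, ?_⟩
    · have := (h2 z hz).2
      rw [Tg_L_tog Q hab, if_neg hza, if_neg hzb, add_zero] at this
      exact this
    · have := (h2 a ha).2
      rw [Tg_L_tog Q hab, if_pos rfl, Tg_om_add, Tg_om_ne _ _ (h2 a ha).1 (h2 b hb).1 h3] at this
      exact (hne _).1 this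
  · rintro ⟨⟨h1, h2, h3, h4⟩, h5⟩
    refine ⟨⟨h1, fun z hz => ⟨h2 z hz, ?_⟩⟩, h3⟩
    rw [Tg_L_tog Q hab, Tg_om_add]
    by_cases hza : z = a
    · subst hza
      rw [if_pos rfl, Tg_om_ne _ _ (h2 z ha) (h2 b hb) h3]
      exact (hne _).2 h5
    · rw [if_neg hza]
      by_cases hzb : z = b
      · subst hzb
        rw [if_pos rfl, Tg_om_ne _ _ (h2 z hb) (h2 a ha) (Ne.symm h3), ← Tg_EE hQ hab h1 h4]
        exact (hne _).2 h5
      · rw [if_neg hzb, h4 z hz hza hzb, Tg_om_comm (v z) 0, Tg_om_zero, add_zero]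

private theorem Tg_even {Q : V → V → ZMod 2} {D : Finset V} {a b : V} (ha : a ∉ D) (hb : b ∉ D) :
    Even ((SG Q D).filter (fun v => ¬ v a = v b)).card := by
  have key : (((SG Q D).filter (fun v => ¬ v a = v b)).card : ZMod 2) = 0 := by
    rw [Finset.card_eq_sum_ones, Nat.cast_sum]
    refine Finset.sum_involution (fun v _ => swp v) ?_ ?_ ?_ ?_
    · intro v _
      exact Tg_char _
    · intro v hv _ h
      rw [Finset.mem_filter, mem_SG] at hv
      have h1 := (hv.1.2 a ha).1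
      have h2 := (hv.1.2 b hb).1
      have e1 : (v a).1 = (v a).2 := congrArg Prod.snd (congrFun h a)
      have e2 : (v b).1 = (v b).2 := congrArg Prod.snd (congrFun h b)
      have : ∀ p q : K, p ≠ 0 → q ≠ 0 → p.1 = p.2 → q.1 = q.2 → p = q := by decide
      exact hv.2 (this _ _ h1 h2 e1 e2)
    · intro v hv
      rw [Finset.mem_filter, mem_SG] at hv ⊢
      obtain ⟨⟨h1, h2⟩, h3⟩ := hv
      refine ⟨⟨fun z hz => ?_, fun z hz => ?_⟩, fun h => h3 ?_⟩
      · unfold swp
        rw [h1 z hz]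
        rfl
      · obtain ⟨h4, h5⟩ := h2 z hz
        refine ⟨fun h => h4 ?_, ?_⟩
        · have e1 := congrArg Prod.fst h
          have e2 := congrArg Prod.snd h
          exact Prod.ext e2 e1
        · rw [Tg_L_swp]
          exact (Tg_om_swp _ _).trans h5
      · have e1 := congrArg Prod.fst h
        have e2 := congrArg Prod.snd h
        exact Prod.ext e2 e1
    · intro v _
      rfl
  exact (ZMod.natCast_eq_zero_iff_even).1 key

private theorem Tg_fib_le {Q : V → V → ZMod 2} {D : Finset V} {a b : V} {k k' m m' : K}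
    (h1 : k ≠ 0) (h2 : k' ≠ 0) (h3 : k ≠ k') (h4 : m ≠ 0) (h5 : m' ≠ 0) (h6 : m ≠ m') :
    ((SR Q D a b).filter (fun v => (v a, v b) = (k, k'))).card ≤
      ((SR Q D a b).filter (fun v => (v a, v b) = (m, m'))).card := by
  obtain ⟨c, e1, e2, e0⟩ := Tg_lin k k' m m' h1 h2 h3 h4 h5 h6
  have e3 := Tg_glom c e0
  have e4 := Tg_glinj c e0
  refine Finset.card_le_card_of_injOn (fun v y => gl c (v y)) ?_ ?_
  · intro v hv
    rw [Finset.mem_coe, Finset.mem_filter, mem_SR] at hv ⊢
    obtain ⟨⟨g1, g2, g3, g4⟩, g5⟩ := hv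
    rw [Prod.mk.injEq] at g5
    refine ⟨⟨fun z hz => ?_, fun z hz h => ?_, fun h => ?_, fun z hz hza hzb => ?_⟩, ?_⟩
    · show gl c (v z) = 0
      rw [g1 z hz, Tg_gl0]
    · exact g2 z hz (e4 _ _ (h.trans (Tg_gl0 c).symm))
    · exact g3 (e4 _ _ h)
    · rw [Tg_L_gl]
      exact (e3 _ _).trans (g4 z hz hza hzb)
    · show (gl c (v a), gl c (v b)) = (m, m')
      rw [g5.1, g5.2, e1, e2]
  · intro v _ w _ h
    funext y
    exact e4 _ _ (congrFun h y)

private theorem Tg_fib (hOd : St_Od) {Q : V → V → ZMod 2} {D : Finset V} {a b : V} (hab : a ≠ b)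
    (ha : a ∉ D) (hb : b ∉ D) :
    Odd ((SR Q D a b).filter (fun v => (v a, v b) = (k0, k1))).card := by
  have h := hOd V Q (insert a (insert b D)) (fun x => if x = a then k0 else if x = b then k1 else 0)
  unfold NN at h
  have e : (SR Q D a b).filter (fun v => (v a, v b) = (k0, k1)) =
      Finset.univ.filter (fun v : V → K => (∀ z ∈ insert a (insert b D),
        v z = (fun x => if x = a then k0 else if x = b then k1 else 0) z) ∧
        ∀ z, z ∉ insert a (insert b D) → Gd Q v z) := by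
    ext v
    simp only [Finset.mem_filter, Finset.mem_univ, true_and, mem_SR, Finset.mem_insert,
      Prod.mk.injEq]
    constructor
    · rintro ⟨⟨g1, g2, g3, g4⟩, g5, g6⟩
      refine ⟨fun z hz => ?_, fun z hz => ?_⟩
      · by_cases hza : z = a
        · rw [if_pos hza, hza, g5]
        · rw [if_neg hza]
          by_cases hzb : z = b
          · rw [if_pos hzb, hzb, g6]
          · rw [if_neg hzb]
            rcases hz with hz | hz | hz
            · exact absurd hz hza
            · exact absurd hz hzb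
            · exact g1 z hz
      · push Not at hz
        exact ⟨g2 z hz.2.2, g4 z hz.2.2 hz.1 hz.2.1⟩
    · rintro ⟨g1, g2⟩
      have ga : v a = k0 := by
        have := g1 a (Or.inl rfl)
        rwa [if_pos rfl] at this
      have gb : v b = k1 := by
        have := g1 b (Or.inr (Or.inl rfl))
        rwa [if_neg (Ne.symm hab), if_pos rfl] at this
      refine ⟨⟨fun z hz => ?_, fun z hz => ?_, ?_, fun z hz hza hzb => ?_⟩, ga, gb⟩
      · have := g1 z (Or.inr (Or.inr hz))
        have na : z ≠ a := fun h => ha (h ▸ hz)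
        have nb : z ≠ b := fun h => hb (h ▸ hz)
        rwa [if_neg na, if_neg nb] at this
      · by_cases hza : z = a
        · rw [hza, ga]
          decide
        · by_cases hzb : z = b
          · rw [hzb, gb]
            decide
          · exact (g2 z (by rintro (h | h | h); exacts [hza h, hzb h, hz h])).1
      · rw [ga, gb]
        decide
      · exact (g2 z (by rintro (h | h | h); exacts [hza h, hzb h, hz h])).2
  rw [e]
  exact h

theorem thm_Tg (hOd : St_Od) : St_Tg := by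
  intro V _ _ Q hQ D a b hab ha hb
  have n1 : NN Q D (fun _ => 0) = (SG Q D).card := rfl
  have n2 : NN (tog Q a b) D (fun _ => 0) = (SG (tog Q a b) D).card := rfl
  have c1 := Finset.card_filter_add_card_filter_not (s := SG Q D) (fun v => v a = v b)
  have c2 := Finset.card_filter_add_card_filter_not (s := SG (tog Q a b) D) (fun v => v a = v b)
  have c3 := Finset.card_filter_add_card_filter_not (s := SR Q D a b)
    (fun v => om (v a) (L Q v a) = 0)
  rw [Tg_same Q D hab] at c2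
  obtain ⟨w, hw⟩ := Tg_even (Q := Q) ha hb
  have e0 := Tg_R0 ha hQ hab
  have e1 := Tg_R1 ha hb hQ hab
  rw [e1] at c2
  have hw' := hw
  rw [e0] at hw'
  obtain ⟨t, ht⟩ := Tg_fib hOd (Q := Q) hab ha hb
  let PP : Finset (K × K) := Finset.univ.filter fun p => p.1 ≠ 0 ∧ p.2 ≠ 0 ∧ p.1 ≠ p.2
  have hPP : PP.card = 6 := by decide
  have c4 : (SR Q D a b).card = 6 * (2 * t + 1) := by
    rw [Finset.card_eq_sum_card_fiberwise (f := fun v => (v a, v b)) (t := PP)]
    · rw [Finset.sum_congr rfl (g := fun _ => 2 * t + 1), Finset.sum_const, hPP, smul_eq_mul]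
      rintro ⟨k, k'⟩ hk
      rw [Finset.mem_filter] at hk
      obtain ⟨-, g1, g2, g3⟩ := hk
      refine le_antisymm ?_ ?_
      · rw [← ht]
        exact Tg_fib_le g1 g2 g3 (by decide) (by decide) (by decide)
      · rw [← ht]
        exact Tg_fib_le (by decide) (by decide) (by decide) g1 g2 g3
    · intro v hv
      rw [Finset.mem_coe, mem_SR] at hv
      rw [Finset.mem_coe, Finset.mem_filter]
      exact ⟨Finset.mem_univ _, hv.2.1 a ha, hv.2.1 b hb, hv.2.2.1⟩
  rw [n1, n2, ← c1, ← c2, hw]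
  rw [c4, hw'] at c3
  have c5 := congrArg (Nat.cast : ℕ → ZMod 4) c3
  have h4 : (4 : ZMod 4) = 0 := by decide
  push_cast at c5 ⊢
  linear_combination c5 + (3 * (t : ZMod 4) + 1 - w) * h4

end Pool.Agent.ECM
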