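import Pool.Agent.ECM.St

/-!
# ECM [Tk]: the number of the solutions of a square linear system over `K` modulo four (helper73)
-/

set_option autoImplicit false

namespace Pool.Agent.ECM

open Pool.Agent.ECH

private theorem Tk_L_add {V : Type} [Fintype V] (M : V → V → ZMod 2) (v w : V → K) (x : V) :
    L M (v + w) x = L M v x + L M w x := by
  unfold L
  refine Prod.ext ?_ ?_
  · show ∑ y, M x y * ((v y).1 + (w y).1) = ∑ y, M x y * (v y).1 + ∑ y, M x y * (w y).1
    rw [← Finset.sum_add_distrib]
    exact Finset.sum_congr rfl fun y _ => mul_add _ _ _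
  · show ∑ y, M x y * ((v y).2 + (w y).2) = ∑ y, M x y * (v y).2 + ∑ y, M x y * (w y).2
    rw [← Finset.sum_add_distrib]
    exact Finset.sum_congr rfl fun y _ => mul_add _ _ _

/-- the linear map as an additive map -/
private def Tk_F {V : Type} [Fintype V] (M : V → V → ZMod 2) : (V → K) →+ (V → K) :=
  AddMonoidHom.mk' (fun v x => L M v x) (fun v w => funext fun x => Tk_L_add M v w x)

private theorem Tk_F_apply {V : Type} [Fintype V] (M : V → V → ZMod 2) (v : V → K) (x : V) :
    Tk_F M v x = L M v x := rfl

/-- the multiples of a scalar vector -/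
private def Tk_phi {V : Type} (z : V → ZMod 2) : K →+ (V → K) :=
  AddMonoidHom.mk' (fun k x => (z x * k.1, z x * k.2)) (by
    intro a b
    funext x
    refine Prod.ext ?_ ?_
    · exact mul_add _ _ _
    · exact mul_add _ _ _)

private theorem Tk_dvd {V : Type} [Fintype V] [DecidableEq V] (M : V → V → ZMod 2)
    (z : V → ZMod 2) (hz : z ≠ 0) (hM : ∀ x, ∑ y, M x y * z y = 0) :
    4 ∣ (Finset.univ.filter fun v : V → K => ∀ x, L M v x = 0).card := by
  classical
  have hcard : Nat.card (Tk_F M).ker =
      (Finset.univ.filter fun v : V → K => ∀ x, L M v x = 0).card := by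
    refine Nat.subtype_card _ fun v => ?_
    rw [Finset.mem_filter, AddMonoidHom.mem_ker]
    constructor
    · rintro ⟨_, h⟩
      exact funext fun x => h x
    · intro h
      exact ⟨Finset.mem_univ _, fun x => congrFun h x⟩
  have hmem : ∀ k : K, Tk_phi z k ∈ (Tk_F M).ker := by
    intro k
    rw [AddMonoidHom.mem_ker]
    funext x
    show L M (fun x => (z x * k.1, z x * k.2)) x = 0
    unfold L
    refine Prod.ext ?_ ?_
    · show ∑ y, M x y * (z y * k.1) = 0
      have h : ∀ y ∈ (Finset.univ : Finset V), M x y * (z y * k.1) = M x y * z y * k.1 :=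
        fun y _ => (mul_assoc _ _ _).symm
      rw [Finset.sum_congr rfl h, ← Finset.sum_mul, hM x, zero_mul]
    · show ∑ y, M x y * (z y * k.2) = 0
      have h : ∀ y ∈ (Finset.univ : Finset V), M x y * (z y * k.2) = M x y * z y * k.2 :=
        fun y _ => (mul_assoc _ _ _).symm
      rw [Finset.sum_congr rfl h, ← Finset.sum_mul, hM x, zero_mul]
  obtain ⟨x, hx⟩ := Function.ne_iff.1 hz
  have hx1 : z x = 1 := by
    have h2 : ∀ a : ZMod 2, a ≠ 0 → a = 1 := by decide
    exact h2 _ hx
  have hinj : Function.Injective ((Tk_phi z).codRestrict (Tk_F M).ker hmem) := by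
    intro a b hab
    have h1 : Tk_phi z a = Tk_phi z b := congrArg Subtype.val hab
    have h2 : ((z x * a.1, z x * a.2) : K) = (z x * b.1, z x * b.2) := congrFun h1 x
    rw [hx1, one_mul, one_mul, one_mul, one_mul] at h2
    exact h2
  have h3 := AddSubgroup.card_dvd_of_injective _ hinj
  rw [hcard] at h3
  have h4 : Nat.card K = 4 := by
    rw [Nat.card_eq_fintype_card]
    rfl
  rwa [h4] at h3

/-- [Tk] -/
theorem thm_Tk : St_Tk := by
  classical
  intro V _ _ M w
  by_cases hw : ∃ v0 : V → K, ∀ x, L M v0 x = w x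
  · obtain ⟨v0, hv0⟩ := hw
    have h : (Finset.univ.filter fun v : V → K => ∀ x, L M v x = w x).card =
        (Finset.univ.filter fun v : V → K => ∀ x, L M v x = 0).card := by
      symm
      refine Finset.card_bij (fun v _ => v + v0) ?_ ?_ ?_
      · intro v hv
        rw [Finset.mem_filter] at hv ⊢
        refine ⟨Finset.mem_univ _, fun x => ?_⟩
        rw [Tk_L_add, hv.2 x, hv0 x, zero_add]
      · intro a _ b _ hab
        exact add_right_cancel hab
      · intro b hb
        rw [Finset.mem_filter] at hb
        refine ⟨b - v0, ?_, sub_add_cancel b v0⟩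
        rw [Finset.mem_filter]
        refine ⟨Finset.mem_univ _, fun x => ?_⟩
        have h1 := Tk_L_add M (b - v0) v0 x
        rw [sub_add_cancel, hb.2 x, hv0 x] at h1
        exact (right_eq_add.1 h1)
    rw [h]
  · have h0 : (Finset.univ.filter fun v : V → K => ∀ x, L M v x = w x) = ∅ := by
      rw [Finset.filter_eq_empty_iff]
      intro v _ hv
      exact hw ⟨v, hv⟩
    rw [h0, Finset.card_empty, Nat.cast_zero]
    have hni : ¬ Function.Injective (Tk_F M) := by
      intro hi
      obtain ⟨v, hv⟩ := (Finite.injective_iff_surjective.1 hi) w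
      exact hw ⟨v, fun x => congrFun hv x⟩
    rw [injective_iff_map_eq_zero] at hni
    push Not at hni
    obtain ⟨v, hv, hv0⟩ := hni
    have hvx : ∀ x, L M v x = 0 := fun x => congrFun hv x
    have h4 : 4 ∣ (Finset.univ.filter fun v : V → K => ∀ x, L M v x = 0).card := by
      by_cases h1 : (fun x => (v x).1) = (0 : V → ZMod 2)
      · refine Tk_dvd M (fun x => (v x).2) ?_ fun x => congrArg Prod.snd (hvx x)
        intro h2
        refine hv0 (funext fun x => ?_)
        exact Prod.ext (congrFun h1 x) (congrFun h2 x)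
      · exact Tk_dvd M (fun x => (v x).1) h1 fun x => congrArg Prod.fst (hvx x)
    exact ((ZMod.natCast_eq_zero_iff _ 4).2 h4).symm

end Pool.Agent.ECM
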