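import Pool.Agent.ECM.St

/-! # ECM: [Tr] and [Od] (MP_854819_co) -/

set_option autoImplicit false

namespace Pool.Agent.ECM

theorem thm_Tr (hT : St_Tk) (hE : St_Ex) : St_Tr := by
  intro V _ _ Q D d
  rw [hE V Q D d, hE V Q D (fun _ => 0)]
  refine Finset.sum_congr rfl fun f _ => ?_
  rw [hT V (Mf Q D f) (fun x => if x ∈ D then d x else 0)]
  have h : (fun x : V => if x ∈ D then (fun _ : V => (0 : K)) x else 0) = fun _ => 0 := by
    funext x
    simp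
  have h2 : ∀ v : V → K, (∀ x, L (Mf Q D f) v x = if x ∈ D then (fun _ : V => (0 : K)) x else 0) ↔
      ∀ x, L (Mf Q D f) v x = 0 := by
    intro v
    refine forall_congr' fun x => ?_
    rw [congrFun h x]
  simp only [h2]

theorem thm_Od (hTr : St_Tr) (hH : St_Ho) : St_Od := by
  intro V _ _ Q D d
  have h := hTr V Q D d
  have h0 := (hH V Q D).1
  have h2 : ((NN Q D d : ℕ) : ZMod 4) + 2 * ((∑ x ∈ Dᶜ, NX Q D d x : ℕ) : ZMod 4) =
      ((NN Q D (fun _ => 0) : ℕ) : ZMod 4) + 2 * ((∑ x ∈ Dᶜ, NX Q D (fun _ => 0) x : ℕ) : ZMod 4) := by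
    push_cast
    exact h
  have h3 : ((NN Q D d + 2 * (∑ x ∈ Dᶜ, NX Q D d x) : ℕ) : ZMod 4) =
      ((NN Q D (fun _ => 0) + 2 * (∑ x ∈ Dᶜ, NX Q D (fun _ => 0) x) : ℕ) : ZMod 4) := by
    rw [Nat.cast_add, Nat.cast_add, Nat.cast_mul, Nat.cast_mul, Nat.cast_two]
    exact h2
  rw [ZMod.natCast_eq_natCast_iff'] at h3
  obtain ⟨m, hm⟩ := h0
  rw [Nat.odd_iff]
  omega

end Pool.Agent.ECM
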